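import Pool.Agent.Lib.MP_7428c0_nt.G.Over

/-!
# Basic lemmas on smooth representations and induction
-/

set_option autoImplicit false

namespace TwistDescent

namespace Smooth

open CategoryTheory

namespace SRep

variable {G : TG}

@[simp] theorem act_zero (V : SRep G) (g : G.T) : V.act g 0 = 0 := (V.lin g).map_zero

theorem act_add (V : SRep G) (g : G.T) (v w : V.V) : V.act g (v + w) = V.act g v + V.act g w :=
  (V.lin g).map_add v w

theorem act_smul (V : SRep G) (g : G.T) (r : ℂ) (v : V.V) : V.act g (r • v) = r • V.act g v :=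
  (V.lin g).map_smul r v

/-- The linear map underlying a morphism. -/
def toLin {X Y : SRep G} (f : X ⟶ Y) : X.V →ₗ[ℂ] Y.V where
  toFun := SHom.ap (X := X) (Y := Y) f
  map_add' := (SHom.is (X := X) (Y := Y) f).1.map_add
  map_smul' := (SHom.is (X := X) (Y := Y) f).1.map_smul

theorem toLin_comm {X Y : SRep G} (f : X ⟶ Y) (g : G.T) (v : X.V) :
    toLin f (X.act g v) = Y.act g (toLin f v) := (SHom.is (X := X) (Y := Y) f).2 g v

/-- The morphism with a given underlying linear map. -/
def ofLin {X Y : SRep G} (f : X.V →ₗ[ℂ] Y.V) (hf : ∀ g v, f (X.act g v) = Y.act g (f v)) :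
    X ⟶ Y := SHom.mk (X := X) (Y := Y) f ⟨fun r v w => by rw [map_add, map_smul], hf⟩

@[simp] theorem toLin_ofLin {X Y : SRep G} (f : X.V →ₗ[ℂ] Y.V)
    (hf : ∀ g v, f (X.act g v) = Y.act g (f v)) : toLin (ofLin f hf) = f := rfl

@[ext] theorem hom_ext {X Y : SRep G} {f g : X ⟶ Y} (h : ∀ v, toLin f v = toLin g v) : f = g :=
  Subtype.ext (funext h)

@[simp] theorem toLin_id (X : SRep G) (v : X.V) : toLin (𝟙 X) v = v := rfl

@[simp] theorem toLin_comp {X Y Z : SRep G} (f : X ⟶ Y) (g : Y ⟶ Z) (v : X.V) :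
    toLin (f ≫ g) v = toLin g (toLin f v) := rfl

@[simp] theorem toLin_add {X Y : SRep G} (f g : X ⟶ Y) (v : X.V) :
    toLin (f + g) v = toLin f v + toLin g v := rfl

@[simp] theorem toLin_smul {X Y : SRep G} (r : ℂ) (f : X ⟶ Y) (v : X.V) :
    toLin (r • f) v = r • toLin f v := rfl

/-- An isomorphism from an equivariant linear equivalence. -/
def mkIso {X Y : SRep G} (e : X.V ≃ₗ[ℂ] Y.V) (he : ∀ g v, e (X.act g v) = Y.act g (e v)) :
    X ≅ Y where
  hom := ofLin e.toLinearMap he
  inv := ofLin e.symm.toLinearMap (fun g v => by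
    have h := he g (e.symm v)
    simp only [LinearEquiv.coe_coe]
    rw [LinearEquiv.apply_symm_apply] at h
    rw [← h, LinearEquiv.symm_apply_apply])
  hom_inv_id := by
    ext v
    simp
  inv_hom_id := by
    ext v
    simp

@[simp] theorem mkIso_hom {X Y : SRep G} (e : X.V ≃ₗ[ℂ] Y.V)
    (he : ∀ g v, e (X.act g v) = Y.act g (e v)) (v : X.V) : toLin (mkIso e he).hom v = e v := rfl

@[simp] theorem mkIso_inv {X Y : SRep G} (e : X.V ≃ₗ[ℂ] Y.V)
    (he : ∀ g v, e (X.act g v) = Y.act g (e v)) (v : Y.V) : toLin (mkIso e he).inv v = e.symm v :=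
  rfl

end SRep

open SRep

/-- Locally compact nonarchimedean groups have a basis of compact open subgroups. -/
theorem exists_compact_open {G : TG} [NonarchimedeanGroup G.T]
    [LocallyCompactSpace G.T] {U : Set G.T} (hU : U ∈ nhds (1 : G.T)) :
    ∃ K : OpenSubgroup G.T, IsCompact (K : Set G.T) ∧ (K : Set G.T) ⊆ U := by
  obtain ⟨C, hC, hCU, hCc⟩ := LocallyCompactSpace.local_compact_nhds (1 : G.T) U hU
  obtain ⟨K, hK⟩ := NonarchimedeanGroup.is_nonarchimedean C hC
  exact ⟨K, hCc.of_isClosed_subset K.isClosed hK, hK.trans hCU⟩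

section para

variable {L M : TG} (P : Para L M)

theorem Para.inc_one : P.inc 1 = 1 := by
  have h := P.inc_mul 1 1
  rw [mul_one] at h
  exact left_eq_mul.1 h

theorem Para.proj_one : P.proj 1 = 1 := by
  have h := P.proj_mul 1 1
  rw [mul_one] at h
  exact left_eq_mul.1 h

theorem Para.δ_one : P.δ 1 = 1 := by
  have h := P.δ_mul 1 1
  rw [mul_one] at h
  exact mul_left_cancel₀ (P.δ_ne 1) (h.symm.trans (mul_one _).symm)

theorem Para.inc_inv (p : P.P) : P.inc p⁻¹ = (P.inc p)⁻¹ := by
  apply eq_inv_of_mul_eq_one_left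
  rw [← P.inc_mul, inv_mul_cancel, P.inc_one]

theorem Para.proj_inv (p : P.P) : P.proj p⁻¹ = (P.proj p)⁻¹ := by
  apply eq_inv_of_mul_eq_one_left
  rw [← P.proj_mul, inv_mul_cancel, P.proj_one]

theorem Para.δ_inv (p : P.P) : P.δ p⁻¹ = (P.δ p)⁻¹ := by
  apply eq_inv_of_mul_eq_one_left
  rw [← P.δ_mul, inv_mul_cancel, P.δ_one]

end para

section ind

variable {L M : TG}

/-- The support of the function `f` on `M` is contained in `P C` for a compact set `C`. -/
def SuppCond (P : Para L M) {V : Type} [Zero V] (f : M.T → V) : Prop :=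
  ∃ C : Set M.T, IsCompact C ∧ ∀ m, f m ≠ 0 → ∃ p : P.P, ∃ c ∈ C, P.inc p * c = m

theorem SuppCond.mono {P : Para L M} {V W : Type} [Zero V] [Zero W] {f : M.T → V} {g : M.T → W}
    (h : SuppCond P f) (hg : ∀ m, f m = 0 → g m = 0) : SuppCond P g := by
  obtain ⟨C, hC, h1⟩ := h
  exact ⟨C, hC, fun m hm => h1 m (fun h0 => hm (hg m h0))⟩

/-- The value of an element of the induced representation. -/
def val {P : Para L M} {V : SRep L} (f : (indObj P V).V) (m : M.T) : V.V :=
  IndV.val (P := P) (V := V) f m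

theorem ind_ext {P : Para L M} {V : SRep L} {f g : (indObj P V).V}
    (h : ∀ m, val f m = val g m) : f = g := IndV.ext h

theorem val_left {P : Para L M} {V : SRep L} (f : (indObj P V).V) (p : P.P) (m : M.T) :
    val f (P.inc p * m) = P.δ p • V.act (P.proj p) (val f m) :=
  (IndV.is (P := P) (V := V) f).left p m

theorem val_right {P : Para L M} {V : SRep L} (f : (indObj P V).V) :
    ∃ K : OpenSubgroup M.T, ∀ (m : M.T), ∀ h ∈ K, val f (m * h) = val f m :=
  (IndV.is (P := P) (V := V) f).right

theorem val_supp {P : Para L M} {V : SRep L} (f : (indObj P V).V) :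
    SuppCond P (val f) := (IndV.is (P := P) (V := V) f).supp

@[simp] theorem val_act {P : Para L M} {V : SRep L} (f : (indObj P V).V) (h m : M.T) :
    val ((indObj P V).act h f) m = val f (m * h) := rfl

@[simp] theorem val_add {P : Para L M} {V : SRep L} (f g : (indObj P V).V) (m : M.T) :
    val (f + g) m = val f m + val g m := rfl

@[simp] theorem val_zero {P : Para L M} {V : SRep L} (m : M.T) :
    val (0 : (indObj P V).V) m = 0 := rfl

@[simp] theorem val_smul {P : Para L M} {V : SRep L} (r : ℂ) (f : (indObj P V).V) (m : M.T) :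
    val (r • f) m = r • val f m := rfl

/-- An element of the induced representation from a function. -/
def mkInd {P : Para L M} {V : SRep L} (f : M.T → V.V)
    (h1 : ∀ (p : P.P) (m : M.T), f (P.inc p * m) = P.δ p • V.act (P.proj p) (f m))
    (h2 : ∃ K : OpenSubgroup M.T, ∀ (m : M.T), ∀ h ∈ K, f (m * h) = f m)
    (h3 : SuppCond P f) : (indObj P V).V :=
  IndV.mk (P := P) (V := V) f ⟨h1, h2, h3⟩

@[simp] theorem val_mkInd {P : Para L M} {V : SRep L} (f : M.T → V.V)
    (h1 : ∀ (p : P.P) (m : M.T), f (P.inc p * m) = P.δ p • V.act (P.proj p) (f m))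
    (h2 : ∃ K : OpenSubgroup M.T, ∀ (m : M.T), ∀ h ∈ K, f (m * h) = f m)
    (h3 : SuppCond P f) (m : M.T) : val (mkInd f h1 h2 h3) m = f m := rfl

/-- Functoriality of induction. -/
def indMor (P : Para L M) {V W : SRep L} (φ : V ⟶ W) : indObj P V ⟶ indObj P W :=
  indMap (V := V) (W := W) P φ

@[simp] theorem val_indMor (P : Para L M) {V W : SRep L} (φ : V ⟶ W) (f : (indObj P V).V)
    (m : M.T) : val (toLin (indMor P φ) f) m = toLin φ (val f m) := rfl

/-- Induction of smooth representations along `P`. -/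
def indF (P : Para L M) : SRep L ⥤ SRep M where
  obj := indObj P
  map := indMor P
  map_id V := by
    ext f
    exact ind_ext fun m => rfl
  map_comp φ ψ := by
    ext f
    exact ind_ext fun m => rfl

instance (P : Para L M) : (indF P).Additive where
  map_add := by
    intro V W φ ψ
    ext f
    exact ind_ext fun m => rfl

instance (P : Para L M) : (indF P).Linear ℂ where
  map_smul := by
    intro V W φ r
    ext f
    exact ind_ext fun m => rfl

end ind

end Smooth

end TwistDescent
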