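import Mathlib

/-!
# The category of smooth complex representations of a topological group
-/

set_option autoImplicit false

namespace TwistDescent

namespace Smooth

open CategoryTheory

/-- A topological group. -/
structure TG where
  /-- the underlying type -/
  T : Type
  [grp : Group T]
  [top : TopologicalSpace T]
  [isTop : IsTopologicalGroup T]

attribute [instance] TG.grp TG.top TG.isTop

section linear

variable {U V W : Type} [AddCommGroup U] [Module ℂ U] [AddCommGroup V] [Module ℂ V]
  [AddCommGroup W] [Module ℂ W]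

/-- The map `f` between complex vector spaces is linear. -/
def IsLin (f : V → W) : Prop := ∀ (r : ℂ) (v w : V), f (r • v + w) = r • f v + f w

theorem IsLin.id : IsLin (fun v : V => v) := fun _ _ _ => rfl

theorem IsLin.comp {f : U → V} {g : V → W} (hf : IsLin f) (hg : IsLin g) :
    IsLin (fun v => g (f v)) := fun r v w => by
  show g (f (r • v + w)) = r • g (f v) + g (f w)
  rw [hf, hg]

theorem IsLin.add {f g : V → W} (hf : IsLin f) (hg : IsLin g) : IsLin (f + g) := fun r v w => by
  rw [Pi.add_apply, Pi.add_apply, Pi.add_apply, hf, hg, smul_add, add_add_add_comm]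

theorem IsLin.zero : IsLin (0 : V → W) := fun r v w => by
  rw [Pi.zero_apply, Pi.zero_apply, Pi.zero_apply, smul_zero, add_zero]

theorem IsLin.smul (c : ℂ) {f : V → W} (hf : IsLin f) : IsLin (c • f) := fun r v w => by
  rw [Pi.smul_apply, Pi.smul_apply, Pi.smul_apply, hf, smul_add, smul_comm]

theorem IsLin.map_zero {f : V → W} (hf : IsLin f) : f 0 = 0 := by
  have h := hf 1 0 0
  rw [one_smul, one_smul, add_zero] at h
  exact left_eq_add.1 h

theorem IsLin.map_add {f : V → W} (hf : IsLin f) (v w : V) : f (v + w) = f v + f w := by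
  have h := hf 1 v w
  rwa [one_smul, one_smul] at h

theorem IsLin.map_smul {f : V → W} (hf : IsLin f) (r : ℂ) (v : V) : f (r • v) = r • f v := by
  have h := hf r v 0
  rwa [hf.map_zero, add_zero, add_zero] at h

end linear

/-- A smooth complex representation of the topological group `G`: every vector is fixed by an
open subgroup. -/
structure SRep (G : TG) where
  /-- the vector space -/
  V : Type
  [group : AddCommGroup V]
  [module : Module ℂ V]
  /-- the action -/
  act : G.T → V → V
  lin : ∀ g, IsLin (act g)
  one : ∀ v, act 1 v = v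
  mul : ∀ g h v, act (g * h) v = act g (act h v)
  smooth : ∀ v, ∃ K : OpenSubgroup G.T, ∀ g ∈ K, act g v = v

attribute [instance] SRep.group SRep.module

variable {G : TG}

/-- The map `f` is linear and commutes with the actions of `G`. -/
def IsHom (X Y : SRep G) (f : X.V → Y.V) : Prop :=
  IsLin f ∧ ∀ g v, f (X.act g v) = Y.act g (f v)

theorem IsHom.id (X : SRep G) : IsHom X X (fun v => v) := ⟨IsLin.id, fun _ _ => rfl⟩

theorem IsHom.comp {X Y Z : SRep G} {a : X.V → Y.V} {b : Y.V → Z.V} (ha : IsHom X Y a)
    (hb : IsHom Y Z b) : IsHom X Z (fun v => b (a v)) :=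
  ⟨ha.1.comp hb.1, fun g v => by
    show b (a (X.act g v)) = Z.act g (b (a v))
    rw [ha.2, hb.2]⟩

theorem IsHom.add {X Y : SRep G} {a b : X.V → Y.V} (ha : IsHom X Y a) (hb : IsHom X Y b) :
    IsHom X Y (a + b) := ⟨ha.1.add hb.1, fun g v => by
  rw [Pi.add_apply, Pi.add_apply, ha.2, hb.2, (Y.lin g).map_add]⟩

theorem IsHom.zero (X Y : SRep G) : IsHom X Y 0 := ⟨IsLin.zero, fun g v => by
  rw [Pi.zero_apply, Pi.zero_apply, (Y.lin g).map_zero]⟩

theorem IsHom.smul {X Y : SRep G} (c : ℂ) {a : X.V → Y.V} (ha : IsHom X Y a) :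
    IsHom X Y (c • a) := ⟨ha.1.smul c, fun g v => by
  rw [Pi.smul_apply, Pi.smul_apply, ha.2, (Y.lin g).map_smul]⟩

/-- The space of intertwining operators. -/
def homs (X Y : SRep G) : Submodule ℂ (X.V → Y.V) where
  carrier := IsHom X Y
  zero_mem' := IsHom.zero X Y
  add_mem' := IsHom.add
  smul_mem' := IsHom.smul

/-- The type of intertwining operators. -/
def SHom (X Y : SRep G) : Type := homs X Y

instance SHom.group (X Y : SRep G) : AddCommGroup (SHom X Y) := Submodule.addCommGroup (homs X Y)

instance SHom.module (X Y : SRep G) : Module ℂ (SHom X Y) := Submodule.module (homs X Y)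

/-- The value of an intertwining operator. -/
def SHom.ap {X Y : SRep G} (a : SHom X Y) (v : X.V) : Y.V := Subtype.val a v

theorem SHom.is {X Y : SRep G} (a : SHom X Y) : IsHom X Y a.ap := Subtype.prop a

/-- The intertwining operator given by a map. -/
def SHom.mk {X Y : SRep G} (a : X.V → Y.V) (h : IsHom X Y a) : SHom X Y := ⟨a, h⟩

/-- The identity. -/
def SHom.id (X : SRep G) : SHom X X := SHom.mk _ (IsHom.id X)

/-- The composition. -/
def SHom.comp {X Y Z : SRep G} (a : SHom X Y) (b : SHom Y Z) : SHom X Z :=
  SHom.mk _ (a.is.comp b.is)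

theorem SHom.id_comp {X Y : SRep G} (a : SHom X Y) : (SHom.id X).comp a = a := rfl

theorem SHom.comp_id {X Y : SRep G} (a : SHom X Y) : a.comp (SHom.id Y) = a := rfl

theorem SHom.assoc {X Y Z W : SRep G} (a : SHom X Y) (b : SHom Y Z) (c : SHom Z W) :
    (a.comp b).comp c = a.comp (b.comp c) := rfl

theorem SHom.smul_comp (X Y Z : SRep G) (c : ℂ) (a : SHom X Y) (b : SHom Y Z) :
    (c • a).comp b = c • a.comp b :=
  Subtype.ext (funext fun v => b.is.1.map_smul c (a.ap v))

theorem SHom.comp_smul (X Y Z : SRep G) (a : SHom X Y) (c : ℂ) (b : SHom Y Z) :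
    a.comp (c • b) = c • a.comp b := rfl

theorem SHom.add_comp (X Y Z : SRep G) (a b : SHom X Y) (c : SHom Y Z) :
    (a + b).comp c = a.comp c + b.comp c :=
  Subtype.ext (funext fun v => c.is.1.map_add (a.ap v) (b.ap v))

theorem SHom.comp_add (X Y Z : SRep G) (a : SHom X Y) (b c : SHom Y Z) :
    a.comp (b + c) = a.comp b + a.comp c := rfl

instance : Category (SRep G) where
  Hom := SHom
  id := SHom.id
  comp := SHom.comp
  id_comp := SHom.id_comp
  comp_id := SHom.comp_id
  assoc := SHom.assoc

instance : Preadditive (SRep G) where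
  homGroup := SHom.group
  add_comp := SHom.add_comp
  comp_add := SHom.comp_add

instance : Linear ℂ (SRep G) where
  homModule := SHom.module
  smul_comp := SHom.smul_comp
  comp_smul := SHom.comp_smul

/-- The category of the smooth representations in the class `Q`. -/
def Cls (Q : SRep G → Prop) : Type 1 := ObjectProperty.FullSubcategory (C := SRep G) Q

instance (Q : SRep G → Prop) : Category (Cls Q) :=
  ObjectProperty.FullSubcategory.category (C := SRep G) Q

instance (Q : SRep G → Prop) : Preadditive (Cls Q) :=
  Preadditive.fullSubcategory (C := SRep G) Q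

instance (Q : SRep G → Prop) : Linear ℂ (Cls Q) :=
  Linear.fullSubcategory (C := SRep G) Q

/-- A representation in the class `Q`. -/
def Cls.mk {Q : SRep G → Prop} (V : SRep G) (h : Q V) : Cls Q := ⟨V, h⟩

/-- The underlying representation. -/
def Cls.rep {Q : SRep G → Prop} (X : Cls Q) : SRep G := ObjectProperty.FullSubcategory.obj X

theorem Cls.prop {Q : SRep G → Prop} (X : Cls Q) : Q X.rep :=
  ObjectProperty.FullSubcategory.property X

/-- The intertwining operator underlying a morphism. -/
def Cls.un {Q : SRep G → Prop} {X Y : Cls Q} (f : X ⟶ Y) : SHom X.rep Y.rep :=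
  InducedCategory.Hom.hom f

/-- The morphism given by an intertwining operator. -/
def Cls.hom {Q : SRep G → Prop} {X Y : Cls Q} (f : SHom X.rep Y.rep) : X ⟶ Y :=
  InducedCategory.homMk f

end Smooth

end TwistDescent
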