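import Pool.Agent.Lib.MP_7428c0_nt.G.Comm

/-!
# Clifford theory

Let `d : G → Γ` be a continuous homomorphism from a locally profinite group. Induction with
compact support from the kernel of `d` to `G` is a fully faithful functor from the smooth
representations of the kernel to the equivariant objects of `DRep d`, if the smooth characters
of `Γ` separate points.
-/

set_option autoImplicit false

namespace TwistDescent

namespace Smooth

open CategoryTheory SRep

section triv

variable {G : TG} {Γ : CG}

/-- If `d` is trivial, a representation is isomorphic to its twists. -/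
def trivLin (d : Deg G Γ) (hd : ∀ g, d.f g = 1) (V : SRep G) (a : Tw Γ) : V ≅ twObj d a V :=
  SRep.mkIso (X := V) (Y := twObj d a V) (LinearEquiv.refl ℂ V.V) (fun g v => by
    show V.act g v = chr d a g • V.act g v
    rw [chr_ker d a (hd g), one_smul])

/-- If `d` is trivial, every representation is an equivariant object. -/
def trivEqObj (d : Deg G Γ) (hd : ∀ g, d.f g = 1) (V : SRep G) :
    Equivariant (DRep d) (Tw Γ) where
  obj := V
  lin a := trivLin d hd V a
  lin_zero := by
    apply SRep.hom_ext
    intro v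
    rfl
  lin_add a b := by
    apply SRep.hom_ext
    intro v
    rfl

/-- If `d` is trivial, every representation is an equivariant object. -/
def trivEq (d : Deg G Γ) (hd : ∀ g, d.f g = 1) : SRep G ⥤ Equivariant (DRep d) (Tw Γ) where
  obj := trivEqObj d hd
  map {V W} f := ⟨f, fun a => by
    apply SRep.hom_ext
    intro v
    rfl⟩
  map_id V := rfl
  map_comp f g := rfl

end triv

variable {G : TG} {Γ : CG}

/-- Clifford theory: the functor from the smooth representations of the kernel of `d` to the
equivariant objects, given by induction with compact support. -/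
noncomputable def cliff (d : Deg G Γ) :
    SRep (Ker d) ⥤ Equivariant (DRep d) (Tw Γ) :=
  trivEq (Deg.triv (Ker d) Γ) (fun _ => rfl) ⋙ mapEq (indD (kerPara d))

variable {d : Deg G Γ}

theorem val_ker {V : SRep (Ker d)} (F : (indObj (kerPara d).toPara V).V) (n : (Ker d).T)
    (m : G.T) : val F (Ker.val n * m) = V.act n (val F m) := by
  have h := val_left F n m
  rw [show (kerPara d).δ n = 1 from rfl, one_smul] at h
  exact h

/-- Multiplication by the inverse of a character. -/
noncomputable def mulChr (V : SRep (Ker d)) (a : Tw Γ) (F : (indObj (kerPara d).toPara V).V) :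
    (indObj (kerPara d).toPara V).V :=
  scaleEquiv (kerPara d) a V
    (toLin (indMor (kerPara d).toPara (trivLin (Deg.triv (Ker d) Γ) (fun _ => rfl) V a).hom) F)

theorem val_mulChr (V : SRep (Ker d)) (a : Tw Γ) (F : (indObj (kerPara d).toPara V).V)
    (m : G.T) : val (mulChr V a F) m = (chr d a m)⁻¹ • val F m := rfl

theorem chr_inc (a : Tw Γ) (p : (kerPara d).P) (m : G.T) :
    chr d a ((kerPara d).inc p * m) = chr d a m := by
  rw [chr_mul, chr_ker d a (show d.f ((kerPara d).inc p) = 1 from Ker.prop p), one_mul]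

/-- The function equal to `F` where the character `a` is trivial, and to `0` elsewhere. -/
noncomputable def cutOff (V : SRep (Ker d)) (a : Tw Γ)
    (F : (indObj (kerPara d).toPara V).V) : (indObj (kerPara d).toPara V).V := by
  classical
  exact mkInd (fun m => if chr d a m = 1 then val F m else 0)
    (fun p m => by
      rw [chr_inc]
      split_ifs with h
      · exact val_left F p m
      · rw [act_zero, smul_zero])
    (by
      obtain ⟨K, hK⟩ := val_right F
      obtain ⟨K', hK'⟩ := chr_smooth d a
      refine ⟨K ⊓ K', fun m h hh => ?_⟩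
      rw [chr_right d a m (hK' h hh.2), hK m h hh.1])
    ((val_supp F).mono fun m hm => by rw [hm, ite_self])

open Classical in
theorem val_cutOff (V : SRep (Ker d)) (a : Tw Γ) (F : (indObj (kerPara d).toPara V).V)
    (m : G.T) : val (cutOff V a F) m = if chr d a m = 1 then val F m else 0 := by
  unfold cutOff
  rw [val_mkInd]

/-- The quotient of `F` by `a⁻¹ - 1`, where the character `a` is not trivial, and `0`
elsewhere. -/
noncomputable def divChr (V : SRep (Ker d)) (a : Tw Γ)
    (F : (indObj (kerPara d).toPara V).V) : (indObj (kerPara d).toPara V).V := by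
  classical
  exact mkInd
    (fun m => if chr d a m = 1 then 0 else ((chr d a m)⁻¹ - 1)⁻¹ • val F m)
    (fun p m => by
      rw [chr_inc]
      split_ifs with h
      · rw [act_zero, smul_zero]
      · rw [val_left, act_smul, smul_comm])
    (by
      obtain ⟨K, hK⟩ := val_right F
      obtain ⟨K', hK'⟩ := chr_smooth d a
      refine ⟨K ⊓ K', fun m h hh => ?_⟩
      rw [chr_right d a m (hK' h hh.2), hK m h hh.1])
    ((val_supp F).mono fun m hm => by rw [hm, smul_zero, ite_self])

open Classical in
theorem val_divChr (V : SRep (Ker d)) (a : Tw Γ) (F : (indObj (kerPara d).toPara V).V)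
    (m : G.T) : val (divChr V a F) m =
      if chr d a m = 1 then 0 else ((chr d a m)⁻¹ - 1)⁻¹ • val F m := by
  unfold divChr
  rw [val_mkInd]

theorem cutOff_add (V : SRep (Ker d)) (a : Tw Γ) (F : (indObj (kerPara d).toPara V).V) :
    cutOff V a F + mulChr V a (divChr V a F) = F + divChr V a F := by
  classical
  apply ind_ext
  intro m
  rw [val_add, val_add, val_mulChr, val_cutOff, val_divChr]
  split_ifs with h
  · rw [smul_zero]
  · rw [zero_add]
    have h1 : (chr d a m)⁻¹ - 1 ≠ 0 := by
      intro h2
      apply h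
      exact inv_eq_one.1 (sub_eq_zero.1 h2)
    rw [smul_smul]
    have h2 : (chr d a m)⁻¹ * ((chr d a m)⁻¹ - 1)⁻¹ = 1 + ((chr d a m)⁻¹ - 1)⁻¹ := by
      generalize (chr d a m)⁻¹ = y at h1
      field_simp
      ring
    rw [h2, add_smul, one_smul]

theorem toLin_mulChr {V W : SRep (Ker d)} (φ : (cliff d).obj V ⟶ (cliff d).obj W)
    (a : Tw Γ) (F : (indObj (kerPara d).toPara V).V) :
    toLin (X := indObj (kerPara d).toPara V) (Y := indObj (kerPara d).toPara W)
      (Equivariant.Hom.hom φ) (mulChr V a F) =
      mulChr W a (toLin (X := indObj (kerPara d).toPara V)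
        (Y := indObj (kerPara d).toPara W) (Equivariant.Hom.hom φ) F) := by
  have h := Equivariant.Hom.comm φ a
  have h1 := congrArg (fun g => toLin (X := indObj (kerPara d).toPara V)
    (Y := twObj d a (indObj (kerPara d).toPara W)) g F) h
  exact h1

theorem isOpen_of_right {S : Set G.T} (K : OpenSubgroup G.T)
    (h : ∀ m ∈ S, ∀ x ∈ K, m * x ∈ S) : IsOpen S := by
  rw [isOpen_iff_mem_nhds]
  intro m hm
  have h1 : IsOpen ((fun x : G.T => m⁻¹ * x) ⁻¹' (K : Set G.T)) :=
    K.isOpen.preimage (continuous_const.mul continuous_id)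
  have h2 : m ∈ (fun x : G.T => m⁻¹ * x) ⁻¹' (K : Set G.T) := by
    show m⁻¹ * m ∈ K
    rw [inv_mul_cancel]
    exact K.one_mem'
  refine Filter.mem_of_superset (h1.mem_nhds h2) fun x hx => ?_
  have h3 := h m hm (m⁻¹ * x) hx
  rwa [mul_inv_cancel_left] at h3

/-- A function which vanishes at `1` is supported where one of finitely many characters is not
trivial. -/
theorem exists_separating (hsep : ∀ γ : Γ.T, γ ≠ 1 → ∃ a : Tw Γ, a.char γ ≠ 1)
    {V : SRep (Ker d)} (F : (indObj (kerPara d).toPara V).V) (hF : val F 1 = 0) :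
    ∃ t : Finset (Tw Γ), ∀ m, val F m ≠ 0 → ∃ a ∈ t, chr d a m ≠ 1 := by
  obtain ⟨C, hC, h⟩ := val_supp F
  obtain ⟨K, hK⟩ := val_right F
  have h1 : IsClosed {m : G.T | val F m ≠ 0} := by
    rw [← isOpen_compl_iff]
    refine isOpen_of_right K fun m hm x hx => ?_
    have h2 : val F m = 0 := not_not.1 hm
    show ¬ (val F (m * x) ≠ 0)
    rw [hK m x hx, h2]
    exact fun h => h rfl
  have h3 : IsCompact (C ∩ {m : G.T | val F m ≠ 0}) := hC.inter_right h1
  obtain ⟨t, ht⟩ := h3.elim_finite_subcover (fun a : Tw Γ => {m : G.T | chr d a m ≠ 1})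
    (fun a => by
      obtain ⟨K', hK'⟩ := chr_smooth d a
      refine isOpen_of_right K' fun m hm x hx => ?_
      show chr d a (m * x) ≠ 1
      rw [chr_right d a m (hK' x hx)]
      exact hm)
    (fun c hc => by
      have hd : d.f c ≠ 1 := by
        intro hd
        apply hc.2
        have h4 := val_ker F (Ker.mk c hd) 1
        rw [mul_one, hF, act_zero] at h4
        exact h4
      obtain ⟨a, ha⟩ := hsep _ hd
      exact Set.mem_iUnion.2 ⟨a, ha⟩)
  refine ⟨t, fun m hm => ?_⟩
  obtain ⟨n, c, hc, rfl⟩ := h m hm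
  have h5 : val F c ≠ 0 := by
    intro h6
    apply hm
    rw [val_left, h6, act_zero, smul_zero]
  have h6 := ht ⟨hc, h5⟩
  simp only [Set.mem_iUnion] at h6
  obtain ⟨a, ha, h7⟩ := h6
  refine ⟨a, ha, ?_⟩
  rw [chr_inc]
  exact h7

/-- Clifford theory: an equivariant map is local at `1`. -/
theorem val_hom_eq_zero (hsep : ∀ γ : Γ.T, γ ≠ 1 → ∃ a : Tw Γ, a.char γ ≠ 1)
    {V W : SRep (Ker d)} (φ : (cliff d).obj V ⟶ (cliff d).obj W)
    (F : (indObj (kerPara d).toPara V).V) (hF : val F 1 = 0) :
    val (toLin (X := indObj (kerPara d).toPara V) (Y := indObj (kerPara d).toPara W)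
      (Equivariant.Hom.hom φ) F) 1 = 0 := by
  classical
  set ψ : (indObj (kerPara d).toPara V).V →ₗ[ℂ] (indObj (kerPara d).toPara W).V :=
    toLin (X := indObj (kerPara d).toPara V) (Y := indObj (kerPara d).toPara W)
      (Equivariant.Hom.hom φ) with hψ
  have key : ∀ (a : Tw Γ) (F : (indObj (kerPara d).toPara V).V),
      val (ψ (cutOff V a F)) 1 = val (ψ F) 1 := by
    intro a F
    have h1 := congrArg (fun f => val (ψ f) 1) (cutOff_add V a F)
    simp only [map_add, val_add] at h1
    have h2 : ψ (mulChr V a (divChr V a F)) = mulChr W a (ψ (divChr V a F)) :=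
      toLin_mulChr φ a (divChr V a F)
    rw [h2, val_mulChr, chr_one, inv_one, one_smul] at h1
    exact add_right_cancel h1
  have h1 : ∀ (t : Finset (Tw Γ)), ∃ F' : (indObj (kerPara d).toPara V).V,
      val (ψ F') 1 = val (ψ F) 1 ∧
        ∀ m, val F' m ≠ 0 → val F m ≠ 0 ∧ ∀ a ∈ t, chr d a m = 1 := by
    intro t
    induction t using Finset.induction_on with
    | empty => exact ⟨F, rfl, fun m hm => ⟨hm, fun a ha => absurd ha (Finset.notMem_empty a)⟩⟩
    | insert b s hb ih =>
      obtain ⟨F', h2, h3⟩ := ih
      refine ⟨cutOff V b F', (key b F').trans h2, fun m hm => ?_⟩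
      rw [val_cutOff] at hm
      split_ifs at hm with h4
      · obtain ⟨h5, h6⟩ := h3 m hm
        refine ⟨h5, fun a ha => ?_⟩
        rcases Finset.mem_insert.1 ha with rfl | ha
        · exact h4
        · exact h6 a ha
      · exact absurd rfl hm
  obtain ⟨t, ht⟩ := exists_separating hsep F hF
  obtain ⟨F', h2, h3⟩ := h1 t
  have h4 : F' = 0 := by
    apply ind_ext
    intro m
    rw [val_zero]
    by_contra hm
    obtain ⟨h5, h6⟩ := h3 m hm
    obtain ⟨a, ha, h7⟩ := ht m h5
    exact h7 (h6 a ha)
  rw [← h2, h4, map_zero, val_zero]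

section profinite

variable [NonarchimedeanGroup G.T] [LocallyCompactSpace G.T]

/-- Every vector is the value at `1` of an element of the induced representation. -/
theorem exists_val_one (V : SRep (Ker d)) (v : V.V) :
    ∃ F : (indObj (kerPara d).toPara V).V, val F 1 = v := by
  classical
  obtain ⟨U, hU⟩ := V.smooth v
  obtain ⟨O, hO, hOU⟩ := isOpen_induced_iff.1 U.isOpen
  have h1O : (1 : G.T) ∈ O := by
    have h : (1 : (Ker d).T) ∈ Ker.val ⁻¹' O := by
      have h0 : (Ker.val ⁻¹' O : Set (Ker d).T) = U := hOU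
      rw [h0]
      exact U.one_mem'
    exact h
  obtain ⟨K, hKc, hKO⟩ := exists_compact_open (hO.mem_nhds h1O)
  have hfix : ∀ n : (Ker d).T, Ker.val n ∈ K → V.act n v = v := by
    intro n hn
    apply hU
    have h : n ∈ Ker.val ⁻¹' O := hKO hn
    have h0 : (Ker.val ⁻¹' O : Set (Ker d).T) = U := hOU
    rw [h0] at h
    exact h
  let f : G.T → V.V := fun m => if h : ∃ n : (Ker d).T, ∃ x ∈ K, Ker.val n * x = m then
    V.act h.choose v else 0
  have hf : ∀ (n : (Ker d).T) (x : G.T), x ∈ K → f (Ker.val n * x) = V.act n v := by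
    intro n x hx
    have h : ∃ n' : (Ker d).T, ∃ x' ∈ K, Ker.val n' * x' = Ker.val n * x := ⟨n, x, hx, rfl⟩
    show (if h : ∃ n' : (Ker d).T, ∃ x' ∈ K, Ker.val n' * x' = Ker.val n * x then
      V.act h.choose v else 0) = V.act n v
    rw [dif_pos h]
    obtain ⟨x', hx', h2⟩ := h.choose_spec
    have h3 : Ker.val (h.choose⁻¹ * n) = x' * x⁻¹ := by
      show (Ker.val h.choose)⁻¹ * Ker.val n = x' * x⁻¹
      rw [eq_mul_inv_iff_mul_eq, mul_assoc]
      exact inv_mul_eq_of_eq_mul h2.symm
    have h4 := hfix (h.choose⁻¹ * n) (by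
      rw [h3]
      exact K.mul_mem' hx' (K.inv_mem' hx))
    have h5 : V.act n v = V.act (h.choose * (h.choose⁻¹ * n)) v := by rw [mul_inv_cancel_left]
    rw [h5, V.mul, h4]
  have hf0 : ∀ m, (¬ ∃ n : (Ker d).T, ∃ x ∈ K, Ker.val n * x = m) → f m = 0 :=
    fun m hm => dif_neg hm
  refine ⟨mkInd (P := (kerPara d).toPara) (V := V) f (fun n m => ?_) ⟨K, fun m h hh => ?_⟩
    ⟨K, hKc, fun m hm => ?_⟩, ?_⟩
  · change (Ker d).T at n
    show f (Ker.val n * m) = (1 : ℂ) • V.act n (f m)
    rw [one_smul]
    by_cases h : ∃ n' : (Ker d).T, ∃ x ∈ K, Ker.val n' * x = m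
    · obtain ⟨n', x, hx, rfl⟩ := h
      have h1 : Ker.val n * (Ker.val n' * x) = Ker.val (n * n') * x := by
        rw [← mul_assoc]
        rfl
      rw [h1, hf _ _ hx, hf _ _ hx, V.mul]
    · rw [hf0 m h, act_zero]
      apply hf0
      rintro ⟨n', x, hx, h1⟩
      refine h ⟨n⁻¹ * n', x, hx, ?_⟩
      show (Ker.val n)⁻¹ * Ker.val n' * x = m
      rw [mul_assoc, h1, inv_mul_cancel_left]
  · by_cases h' : ∃ n' : (Ker d).T, ∃ x ∈ K, Ker.val n' * x = m
    · obtain ⟨n', x, hx, rfl⟩ := h'
      rw [mul_assoc, hf _ _ (K.mul_mem' hx hh), hf _ _ hx]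
    · rw [hf0 m h']
      apply hf0
      rintro ⟨n', x, hx, h1⟩
      refine h' ⟨n', x * h⁻¹, K.mul_mem' hx (K.inv_mem' hh), ?_⟩
      rw [← mul_assoc, h1, mul_inv_cancel_right]
  · by_contra h
    apply hm
    apply hf0
    rintro ⟨n, x, hx, h1⟩
    exact h ⟨n, x, hx, h1⟩
  · rw [val_mkInd]
    have h1 := hf 1 1 K.one_mem'
    rw [V.one] at h1
    rw [show Ker.val (1 : (Ker d).T) * 1 = 1 from mul_one _] at h1
    exact h1

theorem cliff_faithful : (cliff d).Faithful where
  map_injective := by
    intro V W f g h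
    apply SRep.hom_ext
    intro v
    obtain ⟨F, rfl⟩ := exists_val_one V v
    have h1 : indMor (kerPara d).toPara f = indMor (kerPara d).toPara g :=
      congrArg Equivariant.Hom.hom h
    have h2 := congrArg (fun φ => val (toLin φ F) 1) h1
    simp only [val_indMor] at h2
    exact h2

/-- Clifford theory: the functor `cliff` is full. -/
theorem cliff_full (hsep : ∀ γ : Γ.T, γ ≠ 1 → ∃ a : Tw Γ, a.char γ ≠ 1) :
    (cliff d).Full where
  map_surjective := by
    intro V W φ
    set ψ : indObj (kerPara d).toPara V ⟶ indObj (kerPara d).toPara W :=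
      Equivariant.Hom.hom φ with hψ
    choose s hs using exists_val_one (d := d) V
    have key : ∀ F F' : (indObj (kerPara d).toPara V).V, val F 1 = val F' 1 →
        val (toLin ψ F) 1 = val (toLin ψ F') 1 := by
      intro F F' h
      have h1 : val (F - F') 1 = 0 := by
        have h2 : val (F - F' + F') 1 = val F 1 := by rw [sub_add_cancel]
        rw [val_add, h] at h2
        exact add_eq_right.1 h2
      have h3 : val (toLin ψ (F - F')) 1 = 0 := val_hom_eq_zero hsep φ (F - F') h1
      have h4 : val (toLin ψ (F - F') + toLin ψ F') 1 = val (toLin ψ F) 1 := by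
        rw [← map_add, sub_add_cancel]
      rw [val_add, h3, zero_add] at h4
      exact h4.symm
    have hval : ∀ (F : (indObj (kerPara d).toPara V).V) (n : (Ker d).T), val F (Ker.val n) =
        V.act n (val F 1) := fun F n => by
      have h := val_ker F n 1
      rwa [mul_one] at h
    refine ⟨ofLin
      { toFun := fun v => val (toLin ψ (s v)) 1
        map_add' := fun v w => by
          rw [← val_add, ← map_add]
          apply key
          rw [val_add, hs, hs, hs]
        map_smul' := fun r v => by
          rw [RingHom.id_apply, ← val_smul, ← map_smul]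
          apply key
          rw [val_smul, hs, hs] }
      (fun n v => ?_), ?_⟩
    · show val (toLin ψ (s (V.act n v))) 1 = W.act n (val (toLin ψ (s v)) 1)
      have h1 : val (toLin ψ (s (V.act n v))) 1 =
          val (toLin ψ ((indObj (kerPara d).toPara V).act (Ker.val n) (s v))) 1 := by
        apply key
        rw [val_act, one_mul, hval, hs, hs]
      rw [h1, toLin_comm, val_act, one_mul]
      have h := val_ker (toLin ψ (s v)) n 1
      rwa [mul_one] at h
    · apply Equivariant.Hom.ext
      apply SRep.hom_ext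
      intro F
      apply ind_ext
      intro m
      change (indObj (kerPara d).toPara V).V at F
      show val (toLin ψ (s (val F m))) 1 = val (toLin ψ F) m
      have h1 : val (toLin ψ F) m = val (toLin ψ ((indObj (kerPara d).toPara V).act m F)) 1 := by
        rw [toLin_comm, val_act, one_mul]
      rw [h1]
      apply key
      rw [hs, val_act, one_mul]

end profinite

end Smooth

end TwistDescent
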