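import Pool.Agent.Lib.MP_7428c0_nt.G.Tws

/-!
# Induction commutes with twists by characters
-/

set_option autoImplicit false

namespace TwistDescent

namespace Smooth

open CategoryTheory SRep

variable {L M : TG} {Γ : CG}

/-- Induction of smooth representations, as a functor between categories with twists. -/
def indD {dL : Deg L Γ} {dM : Deg M Γ} (P : ParaOver dL dM) : DRep dL ⥤ DRep dM :=
  indF P.toPara

instance {dL : Deg L Γ} {dM : Deg M Γ} (P : ParaOver dL dM) : (indD P).Additive :=
  inferInstanceAs (indF P.toPara).Additive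

instance {dL : Deg L Γ} {dM : Deg M Γ} (P : ParaOver dL dM) : (indD P).Linear ℂ :=
  inferInstanceAs ((indF P.toPara).Linear ℂ)

variable {dL : Deg L Γ} {dM : Deg M Γ}

theorem chr_compat (P : ParaOver dL dM) (a : Tw Γ) (p : P.P) :
    chr dL a (P.proj p) = chr dM a (P.inc p) := by
  show a.char _ = a.char _
  rw [P.compat]

theorem chr_right (dM : Deg M Γ) (a : Tw Γ) (m : M.T) {h : M.T} (hh : chr dM a h = 1) :
    chr dM a (m * h) = chr dM a m := by
  rw [chr_mul, hh, mul_one]

/-- The value of an element of the induction of a twist. -/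
def valT {P : ParaOver dL dM} {a : Tw Γ} {V : SRep L}
    (f : (indObj P.toPara (twObj dL a V)).V) (m : M.T) : V.V :=
  (val (P := P.toPara) (V := twObj dL a V) f m : (twObj dL a V).V)

theorem valT_left {P : ParaOver dL dM} {a : Tw Γ} {V : SRep L}
    (f : (indObj P.toPara (twObj dL a V)).V) (p : P.P) (m : M.T) :
    valT f (P.inc p * m) = P.δ p • chr dL a (P.proj p) • V.act (P.proj p) (valT f m) :=
  val_left f p m

theorem valT_right {P : ParaOver dL dM} {a : Tw Γ} {V : SRep L}
    (f : (indObj P.toPara (twObj dL a V)).V) :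
    ∃ K : OpenSubgroup M.T, ∀ (m : M.T), ∀ h ∈ K, valT f (m * h) = valT f m := val_right f

theorem valT_supp {P : ParaOver dL dM} {a : Tw Γ} {V : SRep L}
    (f : (indObj P.toPara (twObj dL a V)).V) : SuppCond P.toPara (valT f) := val_supp f

/-- Multiplication by the inverse of a character identifies the induction of a twist with the
twist of the induction. -/
noncomputable def scaleEquiv (P : ParaOver dL dM) (a : Tw Γ) (V : SRep L) :
    (indObj P.toPara (twObj dL a V)).V ≃ₗ[ℂ] (indObj P.toPara V).V where
  toFun f := mkInd (fun m => (chr dM a m)⁻¹ • valT f m)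
    (fun p m => by
      rw [valT_left, chr_compat, chr_mul, V.act_smul, smul_comm (P.δ p), smul_comm (P.δ p),
        smul_smul]
      congr 1
      rw [mul_inv, mul_comm, mul_inv_cancel_left₀ (chr_ne dM a _)])
    (by
      obtain ⟨K, hK⟩ := valT_right f
      obtain ⟨K', hK'⟩ := chr_smooth dM a
      refine ⟨K ⊓ K', fun m h hh => ?_⟩
      rw [chr_right dM a m (hK' h hh.2), hK m h hh.1])
    ((valT_supp f).mono fun m hm => by rw [hm, smul_zero])
  map_add' f g := ind_ext fun m => smul_add _ _ _
  map_smul' r f := ind_ext fun m => by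
    show (chr dM a m)⁻¹ • (r • valT f m) = r • (chr dM a m)⁻¹ • valT f m
    rw [smul_smul, smul_smul, mul_comm]
  invFun f := mkInd (V := twObj dL a V) (fun m => chr dM a m • (val f m : V.V))
    (fun p m => by
      show chr dM a (P.inc p * m) • (val f (P.inc p * m) : V.V) =
        P.δ p • chr dL a (P.proj p) • V.act (P.proj p) (chr dM a m • val f m)
      rw [val_left, chr_compat, chr_mul, V.act_smul, smul_comm (P.δ p), smul_comm (P.δ p),
        mul_smul])
    (by
      obtain ⟨K, hK⟩ := val_right f
      obtain ⟨K', hK'⟩ := chr_smooth dM a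
      refine ⟨K ⊓ K', fun m h hh => ?_⟩
      show chr dM a (m * h) • (val f (m * h) : V.V) = chr dM a m • (val f m : V.V)
      rw [chr_right dM a m (hK' h hh.2), hK m h hh.1])
    ((val_supp f).mono fun m hm => by
      show chr dM a m • (val f m : V.V) = 0
      rw [hm, smul_zero])
  left_inv f := ind_ext fun m => by
    show chr dM a m • (chr dM a m)⁻¹ • valT f m = valT f m
    rw [smul_smul, mul_inv_cancel₀ (chr_ne dM a m), one_smul]
  right_inv f := ind_ext fun m => by
    show (chr dM a m)⁻¹ • chr dM a m • (val f m : V.V) = val f m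
    rw [smul_smul, inv_mul_cancel₀ (chr_ne dM a m), one_smul]

theorem val_scaleEquiv (P : ParaOver dL dM) (a : Tw Γ) (V : SRep L)
    (f : (indObj P.toPara (twObj dL a V)).V) (m : M.T) :
    val (scaleEquiv P a V f) m = (chr dM a m)⁻¹ • valT f m := rfl

/-- Induction commutes with the twist by `a`. -/
noncomputable def indTw (P : ParaOver dL dM) (a : Tw Γ) :
    tw dL a ⋙ indF P.toPara ≅ indF P.toPara ⋙ tw dM a :=
  NatIso.ofComponents (fun V => SRep.mkIso (X := indObj P.toPara (twObj dL a V))
    (Y := twObj dM a (indObj P.toPara V)) (scaleEquiv P a V) (fun g f => ind_ext fun m => by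
      show (chr dM a m)⁻¹ • valT f (m * g) =
        chr dM a g • (chr dM a (m * g))⁻¹ • valT f (m * g)
      rw [smul_smul, chr_mul]
      congr 1
      rw [mul_inv, mul_comm, mul_assoc, inv_mul_cancel₀ (chr_ne dM a g), mul_one]))
    (fun φ => by
      apply SRep.hom_ext
      intro f
      apply ind_ext
      intro m
      exact (map_smul (toLin φ) _ _).symm)

theorem val_indTw (P : ParaOver dL dM) (a : Tw Γ) (V : SRep L)
    (f : (indObj P.toPara (twObj dL a V)).V) (m : M.T) :
    val (P := P.toPara) (V := V) (toLin ((indTw P a).hom.app V) f) m =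
      (chr dM a m)⁻¹ • valT f m := rfl

noncomputable instance (P : ParaOver dL dM) : (indD P).CommShift (Tw Γ) where
  commShiftIso a := indTw P a
  commShiftIso_zero := by
    apply Iso.ext
    apply NatTrans.ext
    funext V
    rw [Functor.CommShift.isoZero_hom_app]
    apply SRep.hom_ext
    intro f
    apply ind_ext
    intro m
    show (chr dM (0 : Tw Γ) m)⁻¹ • _ = _
    rw [chr_zero, inv_one, one_smul]
    rfl
  commShiftIso_add a b := by
    apply Iso.ext
    apply NatTrans.ext
    funext V
    rw [Functor.CommShift.isoAdd_hom_app]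
    apply SRep.hom_ext
    intro f
    apply ind_ext
    intro m
    show (chr dM (a + b) m)⁻¹ • _ = (chr dM a m)⁻¹ • (chr dM b m)⁻¹ • _
    rw [chr_add, mul_inv, mul_smul]
    rfl

end Smooth

end TwistDescent
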