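import Pool.Agent.Lib.MP_7428c0_nt.G.Whit
import Pool.Agent.Lib.MP_7428c0_nt.SLift
import Pool.Agent.Lib.MP_7428c0_nt.Char

/-!
# Conjugation by elements of the group

Conjugation by an element `g` of `G` on the representations of the kernel of `d : G → Γ`
corresponds to the multiplication of the linearizations by the character `a ↦ a (d g)`.
-/

set_option autoImplicit false

namespace TwistDescent

open CategoryTheory Category

universe v₁ u₁ v₂ u₂ v₃ u₃ v₄ u₄ w w'

section linear

theorem linear_shift_sub {D : Type u₂} [Category.{v₂} D] {A : Type w} [AddMonoid A]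
    [HasShift D A] (P : ObjectProperty D) [P.IsStableUnderShift A] {k : Type w'} [CommRing k]
    [Preadditive D] [Linear k D] (a : A) [(shiftFunctor D a).Linear k] :
    (shiftFunctor P.FullSubcategory a).Linear k where
  map_smul {X Y} f r := by
    have h1 : (P.ι ⋙ shiftFunctor D a).Linear k := inferInstance
    have h2 : (shiftFunctor P.FullSubcategory a ⋙ P.ι).Linear k :=
      Functor.linear_of_iso k (P.ι.commShiftIso a).symm
    apply P.ι.map_injective
    have h3 := h2.map_smul f r
    exact h3

end linear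

section lift

variable {D : Type u₂} [Category.{v₂} D] {A : Type w} [AddGroup A] [HasShift D A]
  (P : ObjectProperty D) [P.IsStableUnderShift A] {k : Type w'} [CommRing k] [Preadditive D]
  [Linear k D] [∀ a : A, (shiftFunctor D a).Linear k]
  [∀ a : A, (shiftFunctor P.FullSubcategory a).Linear k] {E : Type u₃} [Category.{v₃} E]

theorem liftEq_charTwist' (T : E ⥤ Equivariant D A) (hT : ∀ x, P (T.obj x).obj) (J : E ⥤ E)
    (ω : Multiplicative A →* kˣ) (α : J ⋙ T ≅ T ⋙ charTwist ω) :
    Nonempty (J ⋙ liftEq P T hT ≅ liftEq P T hT ⋙ charTwist ω) := by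
  have := mapEq_full (A := A) P.ι
  have := mapEq_faithful (A := A) P.ι
  obtain ⟨β⟩ := charTwist_mapEq (A := A) P.ι ω
  exact ⟨Functor.fullyFaithfulCancelRight (mapEq P.ι)
    (Functor.isoWhiskerLeft J (liftEqIso P T hT) ≪≫ α ≪≫
      Functor.isoWhiskerRight (liftEqIso P T hT).symm (charTwist ω) ≪≫
      Functor.isoWhiskerLeft (liftEq P T hT) β.symm)⟩

end lift

namespace Smooth

open SRep

variable {M : TG} {Γ : CG} {d : Deg M Γ}

/-- The conjugation functor on representations of the kernel of `d`. -/
def conjRep (d : Deg M Γ) (g : M.T) : SRep (Ker d) ⥤ SRep (Ker d) where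
  obj V := conjObj g V
  map {V W} f := conjMap g (V := V) (W := W) f

/-- The character of the group of twists given by evaluation at `γ`. -/
noncomputable def evTw (γ : Γ.T) : Multiplicative (Tw Γ) →* ℂˣ :=
  MonoidHom.mk' (fun a => Units.mk0 ((Multiplicative.toAdd a).char γ)
    ((Multiplicative.toAdd a).ne γ)) (fun _ _ => Units.ext rfl)

/-- The values of an element of the induction of a conjugate. -/
def valC {g : M.T} {V : SRep (Ker d)}
    (f : (indObj (kerPara d).toPara (conjObj g V)).V) (m : M.T) : V.V :=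
  (val (P := (kerPara d).toPara) (V := conjObj g V) f m : (conjObj g V).V)

theorem valC_left {g : M.T} {V : SRep (Ker d)}
    (f : (indObj (kerPara d).toPara (conjObj g V)).V) (n : (Ker d).T) (m : M.T) :
    valC f (Ker.val n * m) = V.act (conjKer g n) (valC f m) := val_ker f n m

theorem valC_right {g : M.T} {V : SRep (Ker d)}
    (f : (indObj (kerPara d).toPara (conjObj g V)).V) :
    ∃ K : OpenSubgroup M.T, ∀ (m : M.T), ∀ h ∈ K, valC f (m * h) = valC f m := val_right f

theorem valC_supp {g : M.T} {V : SRep (Ker d)}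
    (f : (indObj (kerPara d).toPara (conjObj g V)).V) :
    SuppCond (kerPara d).toPara (valC f) := val_supp f

theorem val_conjKer (g : M.T) (n : (Ker d).T) :
    Ker.val (conjKer g n) = g * Ker.val n * g⁻¹ := rfl

/-- Translation by `g⁻¹` from the induction of the conjugate by `g`. -/
def conjEquiv (d : Deg M Γ) (g : M.T) (V : SRep (Ker d)) :
    (indObj (kerPara d).toPara (conjObj g V)).V ≃ₗ[ℂ] (indObj (kerPara d).toPara V).V where
  toFun f := mkInd (P := (kerPara d).toPara) (V := V) (fun m => valC f (g⁻¹ * m))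
    (fun n m => by
      change (Ker d).T at n
      show valC f (g⁻¹ * (Ker.val n * m)) = (1 : ℂ) • V.act n (valC f (g⁻¹ * m))
      have h1 : g⁻¹ * (Ker.val n * m) = Ker.val (conjKer g⁻¹ n) * (g⁻¹ * m) := by
        rw [val_conjKer]
        group
      have h2 : conjKer g (conjKer g⁻¹ n) = n := by
        apply Ker.ext
        rw [val_conjKer, val_conjKer]
        group
      rw [h1, valC_left, h2, one_smul])
    (by
      obtain ⟨K, hK⟩ := valC_right f
      refine ⟨K, fun m h hh => ?_⟩
      rw [← mul_assoc, hK _ h hh])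
    (by
      obtain ⟨C, hC, h⟩ := valC_supp f
      refine ⟨(fun c => g * c) '' C, hC.image (by fun_prop), fun m hm => ?_⟩
      obtain ⟨n, c, hc, h1⟩ := h _ hm
      change (Ker d).T at n
      refine ⟨conjKer g n, g * c, ⟨c, hc, rfl⟩, ?_⟩
      have h2 : Ker.val n * c = g⁻¹ * m := h1
      show g * Ker.val n * g⁻¹ * (g * c) = m
      have h3 : g * Ker.val n * g⁻¹ * (g * c) = g * (Ker.val n * c) := by group
      rw [h3, h2, mul_inv_cancel_left])
  map_add' _ _ := rfl
  map_smul' _ _ := rfl
  invFun f := mkInd (P := (kerPara d).toPara) (V := conjObj g V)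
    (fun m => (val f (g * m) : V.V))
    (fun n m => by
      change (Ker d).T at n
      show (val f (g * (Ker.val n * m)) : V.V) =
        (1 : ℂ) • V.act (conjKer g n) (val f (g * m) : V.V)
      have h1 : g * (Ker.val n * m) = Ker.val (conjKer g n) * (g * m) := by
        rw [val_conjKer]
        group
      rw [h1, val_ker, one_smul])
    (by
      obtain ⟨K, hK⟩ := val_right f
      refine ⟨K, fun m h hh => ?_⟩
      show (val f (g * (m * h)) : V.V) = val f (g * m)
      rw [← mul_assoc, hK _ h hh])
    (by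
      obtain ⟨C, hC, h⟩ := val_supp f
      refine ⟨(fun c => g⁻¹ * c) '' C, hC.image (by fun_prop), fun m hm => ?_⟩
      obtain ⟨n, c, hc, h1⟩ := h _ hm
      change (Ker d).T at n
      refine ⟨conjKer g⁻¹ n, g⁻¹ * c, ⟨c, hc, rfl⟩, ?_⟩
      have h2 : Ker.val n * c = g * m := h1
      show g⁻¹ * Ker.val n * g⁻¹⁻¹ * (g⁻¹ * c) = m
      have h3 : g⁻¹ * Ker.val n * g⁻¹⁻¹ * (g⁻¹ * c) = g⁻¹ * (Ker.val n * c) := by group
      rw [h3, h2, inv_mul_cancel_left])
  left_inv f := ind_ext fun m => by
    show valC f (g⁻¹ * (g * m)) = valC f m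
    rw [inv_mul_cancel_left]
  right_inv f := ind_ext fun m => by
    show val f (g * (g⁻¹ * m)) = val f m
    rw [mul_inv_cancel_left]

theorem val_conjEquiv (d : Deg M Γ) (g : M.T) (V : SRep (Ker d))
    (f : (indObj (kerPara d).toPara (conjObj g V)).V) (m : M.T) :
    val (conjEquiv d g V f) m = valC f (g⁻¹ * m) := rfl

/-- Translation by `g⁻¹` from the induction of the conjugate by `g`. -/
def conjIso (d : Deg M Γ) (g : M.T) (V : SRep (Ker d)) :
    indObj (kerPara d).toPara (conjObj g V) ≅ indObj (kerPara d).toPara V :=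
  SRep.mkIso (conjEquiv d g V) (fun h f => ind_ext fun m => by
    show valC f (g⁻¹ * m * h) = valC f (g⁻¹ * (m * h))
    rw [mul_assoc])

/-- Clifford theory takes conjugation by `g` to the multiplication of the linearizations by the
character `a ↦ a (d g)`. -/
noncomputable def cliffConj (d : Deg M Γ) (g : M.T) :
    conjRep d g ⋙ cliff d ≅
      cliff d ⋙ charTwist (C := DRep d) (A := Tw Γ) (evTw (d.f g)) :=
  NatIso.ofComponents (fun V => Equivariant.mkIso (x := (cliff d).obj (conjObj g V))
    (y := charTwistObj (C := DRep d) (A := Tw Γ) (evTw (d.f g)) ((cliff d).obj V))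
    (conjIso d g V) (fun a => by
      apply SRep.hom_ext
      intro f
      change (indObj (kerPara d).toPara (conjObj g V)).V at f
      apply ind_ext
      intro m
      have h1 : valC (mulChr _ a f) (g⁻¹ * m) = (chr d a (g⁻¹ * m))⁻¹ • valC f (g⁻¹ * m) := rfl
      have h2 : (val (mulChr V a (conjEquiv d g V f)) m : V.V) =
          (chr d a m)⁻¹ • valC f (g⁻¹ * m) := rfl
      have h3 : (chr d a (g⁻¹ * m))⁻¹ = chr d a g * (chr d a m)⁻¹ := by
        rw [chr_mul, mul_inv]
        congr 1
        have h4 := chr_mul d a g⁻¹ g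
        rw [inv_mul_cancel, chr_one] at h4
        exact (eq_inv_of_mul_eq_one_right h4.symm).symm
      show valC (mulChr _ a f) (g⁻¹ * m) =
        ((evTw (d.f g) (Multiplicative.ofAdd a) : ℂˣ) : ℂ) •
          (val (mulChr V a (conjEquiv d g V f)) m : V.V)
      rw [h1, h2, h3, mul_smul]
      rfl))
    (fun {V W} φ => by
      apply Equivariant.Hom.ext
      apply SRep.hom_ext
      intro f
      rfl)

end Smooth

end TwistDescent
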