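import Pool.Agent.Lib.MP_7428c0_nt.Equiv

/-!
# The conditions on families of functors
-/

set_option autoImplicit false

namespace TwistDescent

namespace Smooth

open CategoryTheory

universe u v u' v' u'' v'' w

section vectors

variable {C : Type u} [Category.{v} C] {D : Type u'} [Category.{v'} D]

/-- The identity of `x` is a finite sum of morphisms that factor through objects `P j`
(`x` is a retract of a finite direct sum of objects `P j`). -/
def GenBy [Preadditive C] {J : Type w} (P : J → C) (x : C) : Prop :=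
  ∃ (n : ℕ) (j : Fin n → J) (α : ∀ t, x ⟶ P (j t)) (β : ∀ t, P (j t) ⟶ x),
    ∑ t, α t ≫ β t = 𝟙 x

/-- The vector `u : V ⟶ i W` is universal: every morphism `V ⟶ i x` is `u ≫ i f` for exactly one
`f : W ⟶ x`. -/
def Univ (i : C ⥤ D) {W : C} {V : D} (u : V ⟶ i.obj W) : Prop :=
  ∀ (x : C) (w : V ⟶ i.obj x), ∃! f : W ⟶ x, w = u ≫ i.map f

/-- `u : Y ⟶ i W` is a free generator over the endomorphisms of `W`. -/
def Free (i : C ⥤ D) (W : C) {Y : D} (u : Y ⟶ i.obj W) : Prop :=
  ∀ f : Y ⟶ i.obj W, ∃! z : W ⟶ W, f = u ≫ i.map z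

/-- The endomorphism of `O` which corresponds to the endomorphism `z` of `W`. -/
def transp (F : C ⥤ D) {W : C} {O : D} (e : F.obj W ≅ O) (z : W ⟶ W) : O ⟶ O :=
  e.inv ≫ F.map z ≫ e.hom

variable {A : Type w} [AddGroup A] [HasShift C A] [HasShift D A]

/-- The action of `A` on the endomorphisms of an equivariant object: twist and conjugate with the
linearization. -/
def twistBy (x : Equivariant C A) (a : A) (z : x.obj ⟶ x.obj) : x.obj ⟶ x.obj :=
  (x.lin a).hom ≫ z⟦a⟧' ≫ (x.lin a).inv

/-- The morphism `u : x ⟶ i y` of `D` is equivariant. -/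
def IsEq (i : C ⥤ D) [i.CommShift A] (x : Equivariant D A) (y : Equivariant C A)
    (u : x.obj ⟶ i.obj y.obj) : Prop :=
  ∀ a : A, (x.lin a).hom ≫ u⟦a⟧' =
    u ≫ i.map (y.lin a).hom ≫ (i.commShiftIso a).hom.app y.obj

/-- The morphism `f` commutes with the linearizations, up to the numbers `ω a`. -/
def CommUpTo [Preadditive C] [Linear ℂ C] (ω : A → ℂ) (x y : Equivariant C A)
    (f : x.obj ⟶ y.obj) : Prop :=
  ∀ a : A, (x.lin a).hom ≫ f⟦a⟧' = ω a • (f ≫ (y.lin a).hom)

/-- The functors `T` and `T'` with values in equivariant objects agree, up to the multiplication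
of the linearizations by the numbers `ω a`. -/
def AgreeUpTo {E : Type u''} [Category.{v''} E] [Preadditive C] [Linear ℂ C] (ω : A → ℂ)
    (T T' : E ⥤ Equivariant C A) : Prop :=
  ∃ θ : T ⋙ Equivariant.forget C A ≅ T' ⋙ Equivariant.forget C A, ∀ x : E,
    CommUpTo ω (T.obj x) (T'.obj x) (θ.hom.app x)

end vectors

section families

variable {ι : Type w} [LE ι] {R : ι → Type u} [∀ M, Category.{v} (R M)]
  {X : ι → Type u'} [∀ M, Category.{v'} (X M)]

/-- The conditions of the question on a family of functors `F M : R M ⥤ X M`, one for each standard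
Levi subgroup `M`: they are fully faithful, take the Whittaker object `W M` to the structure
sheaf `O M`, and take parabolic induction `ind` to spectral parabolic induction `spec`. -/
structure Family (ind : ∀ L M : ι, L ≤ M → (R L ⥤ R M)) (spec : ∀ L M : ι, L ≤ M → (X L ⥤ X M))
    (W : ∀ M, R M) (O : ∀ M, X M) (F : ∀ M, R M ⥤ X M) : Prop where
  full : ∀ M, (F M).Full
  faithful : ∀ M, (F M).Faithful
  whittaker : ∀ M, Nonempty ((F M).obj (W M) ≅ O M)
  induction : ∀ L M h, Nonempty (ind L M h ⋙ F M ≅ F L ⋙ spec L M h)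

/-- The properties of the Whittaker objects `W M`, of the structure sheaves `O M` and of the
vectors `u : W M ⟶ ind (W L)` and `v : O M ⟶ spec (O L)`, for all standard Levi subgroups `L ≤ M`. -/
structure WhitData [∀ M, Preadditive (R M)] (ind : ∀ L M : ι, L ≤ M → (R L ⥤ R M))
    (spec : ∀ L M : ι, L ≤ M → (X L ⥤ X M)) (W : ∀ M, R M) (O : ∀ M, X M)
    (u : ∀ (L M : ι) (h : L ≤ M), W M ⟶ (ind L M h).obj (W L))
    (v : ∀ (L M : ι) (h : L ≤ M), O M ⟶ (spec L M h).obj (O L)) : Prop where
  commutative : ∀ (M : ι) (a b : W M ⟶ W M), a ≫ b = b ≫ a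
  separator : ∀ M, IsSeparator (W M)
  generated : ∀ (M : ι) (x : R M),
    GenBy (fun L : {L : ι // L ≤ M} => (ind L M L.2).obj (W L)) x
  universal : ∀ L M h, Univ (ind L M h) (u L M h)
  spec_free : ∀ L M h, Free (spec L M h) (O L) (v L M h)

end families

end Smooth

end TwistDescent
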