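import Pool.Agent.Lib.MP_7428c0_nt.SLift
import Pool.Agent.Lib.MP_7428c0_nt.Twist

/-!
# Lifting equivariant vectors to full subcategories
-/

set_option autoImplicit false

namespace TwistDescent

open CategoryTheory Category

universe v₁ u₁ v₂ u₂ v₃ u₃ v₄ u₄ w

section

variable {C : Type u₁} [Category.{v₁} C] {D : Type u₂} [Category.{v₂} D] {A : Type w}
  [AddGroup A] [HasShift C A] [HasShift D A] (P : ObjectProperty C) [P.IsStableUnderShift A]
  (Q : ObjectProperty D) [Q.IsStableUnderShift A] (I : C ⥤ D) [I.CommShift A]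
  (hI : ∀ x : P.FullSubcategory, Q ((P.ι ⋙ I).obj x))

theorem liftEqObj_lin (x : Equivariant D A) (hx : Q x.obj) (a : A) :
    Q.ι.map ((liftEqObj Q x hx).lin a).hom ≫
      (Q.ι.commShiftIso a).hom.app (liftEqObj Q x hx).obj = (x.lin a).hom :=
  liftAlong_lin Q.ι ⟨x.obj, hx⟩ x.lin x.lin_zero x.lin_add a

theorem lift_commShiftIso (a : A) (Y : P.FullSubcategory) :
    Q.ι.map (((Q.lift (P.ι ⋙ I) hI).commShiftIso a).hom.app Y) ≫
      (Q.ι.commShiftIso a).hom.app ((Q.lift (P.ι ⋙ I) hI).obj Y) =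
    I.map ((P.ι.commShiftIso a).hom.app Y) ≫ (I.commShiftIso a).hom.app (P.ι.obj Y) := by
  have h1 := NatTrans.shift_app_comm (Q.liftCompιIso (P.ι ⋙ I) hI).hom a Y
  have h2 : ((Q.lift (P.ι ⋙ I) hI ⋙ Q.ι).commShiftIso a).hom.app Y =
      Q.ι.map (((Q.lift (P.ι ⋙ I) hI).commShiftIso a).hom.app Y) ≫
      (Q.ι.commShiftIso a).hom.app ((Q.lift (P.ι ⋙ I) hI).obj Y) :=
    Functor.CommShift.comp_commShiftIso_hom_app ..
  have h3 : ((P.ι ⋙ I).commShiftIso a).hom.app Y =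
      I.map ((P.ι.commShiftIso a).hom.app Y) ≫ (I.commShiftIso a).hom.app (P.ι.obj Y) :=
    Functor.CommShift.comp_commShiftIso_hom_app ..
  have h4 : ((Q.liftCompιIso (P.ι ⋙ I) hI).hom.app Y)⟦a⟧' = 𝟙 _ :=
    CategoryTheory.Functor.map_id _ _
  have h5 : (Q.liftCompιIso (P.ι ⋙ I) hI).hom.app (Y⟦a⟧) = 𝟙 _ := rfl
  rw [← h2, ← h3, ← comp_id (((Q.lift (P.ι ⋙ I) hI ⋙ Q.ι).commShiftIso a).hom.app Y),
    ← id_comp (((P.ι ⋙ I).commShiftIso a).hom.app Y)]
  rw [h4, h5] at h1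
  exact h1

theorem lift_isEquivariant (x : Equivariant D A) (hx : Q x.obj) (y : Equivariant C A)
    (hy : P y.obj)
    (U : (liftEqObj Q x hx).obj ⟶ (Q.lift (P.ι ⋙ I) hI).obj (liftEqObj P y hy).obj)
    (hu : IsEquivariant I x y (Q.ι.map U)) :
    IsEquivariant (Q.lift (P.ι ⋙ I) hI) (liftEqObj Q x hx) (liftEqObj P y hy) U := by
  intro a
  apply Q.ι.map_injective
  rw [← cancel_mono ((Q.ι.commShiftIso a).hom.app _)]
  have h1 : Q.ι.map (U⟦a⟧') ≫ (Q.ι.commShiftIso a).hom.app _ =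
      (Q.ι.commShiftIso a).hom.app _ ≫ (Q.ι.map U)⟦a⟧' := Q.ι.commShiftIso_hom_naturality U a
  have h2 := liftEqObj_lin Q x hx a
  have h3 := liftEqObj_lin P y hy a
  have h4 := lift_commShiftIso P Q I hI a (liftEqObj P y hy).obj
  have h5 := hu a
  rw [Functor.map_comp, assoc, h1, ← assoc, h2, Functor.map_comp, Functor.map_comp, assoc, assoc,
    h4, ← assoc (Q.ι.map ((Q.lift (P.ι ⋙ I) hI).map ((liftEqObj P y hy).lin a).hom))]
  have h6 : Q.ι.map ((Q.lift (P.ι ⋙ I) hI).map ((liftEqObj P y hy).lin a).hom) ≫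
      I.map ((P.ι.commShiftIso a).hom.app (liftEqObj P y hy).obj) = I.map (y.lin a).hom :=
    (I.map_comp (P.ι.map ((liftEqObj P y hy).lin a).hom)
      ((P.ι.commShiftIso a).hom.app (liftEqObj P y hy).obj)).symm.trans (congrArg I.map h3)
  rw [h6]
  exact h5

end

section forget

variable {D : Type u₂} [Category.{v₂} D] {A : Type w}
  [AddGroup A] [HasShift D A] (Q : ObjectProperty D) [Q.IsStableUnderShift A]
  {E : Type u₃} [Category.{v₃} E]

/-- The underlying functor of a lift. -/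
noncomputable def liftEqForget (T : E ⥤ Equivariant D A) (hT : ∀ x, Q (T.obj x).obj) :
    liftEq Q T hT ⋙ Equivariant.forget Q.FullSubcategory A ≅
      Q.lift (T ⋙ Equivariant.forget D A) hT :=
  NatIso.ofComponents (fun x => Iso.refl (liftEqObj Q (T.obj x) (hT x)).obj) (fun {x y} f => by
    have := mapEq_full (A := A) Q.ι
    have := mapEq_faithful (A := A) Q.ι
    apply Q.ι.map_injective
    have h1 : (mapEq (A := A) Q.ι).map ((liftEq Q T hT).map f) =
      (liftEqObjIso Q (T.obj x) (hT x)).hom ≫ T.map f ≫ (liftEqObjIso Q (T.obj y) (hT y)).inv :=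
        Functor.map_preimage _ _
    have h2 := congrArg Equivariant.Hom.hom h1
    have h3 : Equivariant.Hom.hom ((liftEqObjIso Q (T.obj x) (hT x)).hom ≫ T.map f ≫
      (liftEqObjIso Q (T.obj y) (hT y)).inv) = 𝟙 _ ≫ Equivariant.Hom.hom (T.map f) ≫ 𝟙 _ := rfl
    rw [h3, id_comp, comp_id] at h2
    have h4 : Q.ι.map (Equivariant.Hom.hom ((liftEq Q T hT).map f)) =
      Q.ι.map ((Q.lift (T ⋙ Equivariant.forget D A) hT).map f) := h2
    rw [Functor.map_comp, Functor.map_comp]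
    have h5 : Q.ι.map (Equivariant.Hom.hom ((liftEq Q T hT).map f)) ≫ 𝟙 _ =
      𝟙 _ ≫ Q.ι.map ((Q.lift (T ⋙ Equivariant.forget D A) hT).map f) := by
      rw [h4, comp_id, id_comp]
    exact h5)

end forget

end TwistDescent
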