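import Pool.Agent.Lib.MP_7428c0_nt.G.Sys2
import Pool.Agent.Lib.MP_7428c0_nt.G.LiftVec

/-!
# The translation between the two descriptions
-/

set_option autoImplicit false

namespace TwistDescent

open CategoryTheory Category Levi

universe v₁ u₁ v₂ u₂ v₃ u₃ w

section conj

variable {C : Type u₁} [Category.{v₁} C] {D : Type u₂} [Category.{v₂} D] {A : Type w}
  [AddGroup A] [HasShift C A] [HasShift D A]

theorem conjTwist_lin (x : Equivariant C A) (a : A) (z : x.obj ⟶ x.obj) :
    conjTwist x a z ≫ (x.lin a).hom = (x.lin a).hom ≫ z⟦a⟧' := by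
  unfold conjTwist
  rw [assoc, assoc, Iso.inv_hom_id, comp_id]

theorem map_conjTwist (F : C ⥤ D) [F.CommShift A] (x : Equivariant C A) (a : A)
    (z : x.obj ⟶ x.obj) : F.map (conjTwist x a z) = conjTwist (mapEqObj F x) a (F.map z) := by
  have h1 : F.map (conjTwist x a z) ≫ ((mapEqObj F x).lin a).hom =
      ((mapEqObj F x).lin a).hom ≫ (F.map z)⟦a⟧' := by
    have h2 : F.map (conjTwist x a z) ≫ F.map (x.lin a).hom =
        F.map (x.lin a).hom ≫ F.map (z⟦a⟧') := by
      rw [← F.map_comp, conjTwist_lin, F.map_comp]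
    have h3 : F.map (z⟦a⟧') ≫ (F.commShiftIso a).hom.app x.obj =
        (F.commShiftIso a).hom.app x.obj ≫ (F.map z)⟦a⟧' := F.commShiftIso_hom_naturality z a
    show F.map (conjTwist x a z) ≫ F.map (x.lin a).hom ≫ (F.commShiftIso a).hom.app x.obj =
      (F.map (x.lin a).hom ≫ (F.commShiftIso a).hom.app x.obj) ≫ (F.map z)⟦a⟧'
    rw [← assoc, h2, assoc, h3, assoc]
  have h4 := conjTwist_lin (mapEqObj F x) a (F.map z)
  exact (cancel_mono ((mapEqObj F x).lin a).hom).1 (h1.trans h4.symm)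

theorem lift_conjTwist (Q : ObjectProperty D) [Q.IsStableUnderShift A] (x : Equivariant D A)
    (hx : Q x.obj) (a : A) (z : (liftEqObj Q x hx).obj ⟶ (liftEqObj Q x hx).obj) :
    Q.ι.map (conjTwist (liftEqObj Q x hx) a z) ≫ (x.lin a).hom =
      (x.lin a).hom ≫ (Q.ι.map z)⟦a⟧' := by
  have h1 := map_conjTwist Q.ι (liftEqObj Q x hx) a z
  have h2 := conjTwist_lin (mapEqObj Q.ι (liftEqObj Q x hx)) a (Q.ι.map z)
  have h3 : ((mapEqObj Q.ι (liftEqObj Q x hx)).lin a).hom = (x.lin a).hom :=
    liftAlong_lin Q.ι ⟨x.obj, hx⟩ x.lin x.lin_zero x.lin_add a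
  rw [← h3, h1]
  exact h2

end conj

namespace Smooth

open SRep

section vec

variable {L M : TG} {Γ : CG} {dL : Deg L Γ} {dM : Deg M Γ}

/-- The product of a vector of the Whittaker space with the inverse of a character. -/
noncomputable def divV (w : ParaOver (Deg.triv pt Γ) dM) (a : Tw Γ) (f : (whit w.toPara).V) :
    (whit w.toPara).V :=
  toLin (X := whit w.toPara) (Y := twObj dM a (whit w.toPara)) ((whitEq w).lin a).hom f

theorem wv_divV (w : ParaOver (Deg.triv pt Γ) dM) (a : Tw Γ) (f : (whit w.toPara).V)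
    (m : M.T) : wv (divV w a f) m = (a.char (dM.f m))⁻¹ * wv f m := rfl

theorem isMul_divV (w : ParaOver (Deg.triv pt Γ) dM) (a : Tw Γ) (f : (whit w.toPara).V) :
    IsMul dM (-a) f (divV w a f) := fun _ => rfl

theorem isEquivariant_vec {P : ParaOver dL dM} {wL : ParaOver (Deg.triv pt Γ) dL}
    {wM : ParaOver (Deg.triv pt Γ) dM}
    (u : SHom (whit wM.toPara) (indObj P.toPara (whit wL.toPara)))
    (hu : IsEqVec dL dM u) :
    IsEquivariant (C := DRep dL) (D := DRep dM) (A := Tw Γ) (indD P) (whitEq wM) (whitEq wL)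
      u := by
  intro a
  apply SRep.hom_ext
  intro f
  change (whit wM.toPara).V at f
  apply ind_ext
  intro m
  apply ind_ext
  intro l
  exact hu (-a) f (divV wM a f) (isMul_divV wM a f) m l

theorem isTwist_of_comm (w : ParaOver (Deg.triv pt Γ) dM) (a : Tw Γ)
    (z z' : SHom (whit w.toPara) (whit w.toPara))
    (h : ∀ f, divV w a (z'.ap f) = z.ap (divV w a f)) : IsTwist dM a z z' := by
  intro f f' hf m
  have h1 : divV w a f' = f := by
    apply IndV.ext
    intro m
    show wv (divV w a f') m = wv f m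
    rw [wv_divV, hf, inv_mul_cancel_left₀ (a.ne _)]
  have h2 := congrArg (fun f => wv f m) (h f')
  simp only [wv_divV] at h2
  rw [h1] at h2
  rw [← h2, mul_inv_cancel_left₀ (a.ne _)]

end vec

namespace LeviSystem

variable {ι : Type} [LE ι] {Γ : CG} (S : LeviSystem ι Γ)

theorem isEquivariant_vec (L M : ι) (h : L ≤ M) (u : S.W M ⟶ (S.ind L M h).obj (S.W L))
    (hu : IsEqVec (S.d L) (S.d M) (Cls.un u)) :
    IsEquivariant (A := Tw Γ) (S.ind L M h) (S.WE M) (S.WE L) u :=
  lift_isEquivariant (S.QD L) (S.QD M) (indD (S.P L M h).toParaOver)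
    (fun V => S.ind_mem L M h V.obj V.property) (whitEq (S.w M).toParaOver) (S.whit_mem M)
    (whitEq (S.w L).toParaOver) (S.whit_mem L) u
    (Smooth.isEquivariant_vec (P := (S.P L M h).toParaOver) (wL := (S.w L).toParaOver)
      (wM := (S.w M).toParaOver) (Cls.un u) hu)

theorem isTwist_conjTwist (M : ι) (a : Tw Γ) (z : S.W M ⟶ S.W M) :
    IsTwist (S.d M) a (Cls.un z) (Cls.un (X := S.W M) (Y := S.W M) (conjTwist (S.WE M) a z)) := by
  have h := lift_conjTwist (S.QD M) (whitEq (S.w M).toParaOver) (S.whit_mem M) a z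
  refine isTwist_of_comm (S.w M).toParaOver a _ _ (fun f => ?_)
  exact congrArg (fun g => toLin (X := whit (S.w M).toPara)
    (Y := twObj (S.d M) a (whit (S.w M).toPara)) g f) h

/-- The underlying functor of Clifford theory. -/
noncomputable def cliffForget (M : ι) :
    S.cliff M ⋙ Equivariant.forget (S.R M) (Tw Γ) ≅ S.indG M :=
  liftEqForget (S.QD M) (S.cliffT M) (S.cliffT_mem M)

end LeviSystem

end Smooth

end TwistDescent
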