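import Pool.Agent.Lib.MP_7428c0_nt.G.Cat

/-!
# Induction of smooth representations with compact support
-/

set_option autoImplicit false

namespace TwistDescent

namespace Smooth

open CategoryTheory

/-- The data for an induction from `L` to `M`: a group `P` with a homomorphism `inc` to `M`, a
homomorphism `proj` onto `L`, and a character `δ` of `P`. -/
structure Para (L M : TG) where
  /-- the subgroup -/
  P : Type
  [grp : Group P]
  /-- the inclusion -/
  inc : P → M.T
  /-- the projection onto the quotient -/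
  proj : P → L.T
  /-- the character -/
  δ : P → ℂ
  inc_mul : ∀ p q, inc (p * q) = inc p * inc q
  proj_mul : ∀ p q, proj (p * q) = proj p * proj q
  proj_surj : ∀ l, ∃ p, proj p = l
  δ_mul : ∀ p q, δ (p * q) = δ p * δ q
  δ_ne : ∀ p, δ p ≠ 0

attribute [instance] Para.grp

/-- The conjugate of an open subgroup. -/
theorem exists_conj {G : TG} (K : OpenSubgroup G.T) (g : G.T) :
    ∃ K' : OpenSubgroup G.T, ∀ x ∈ K', g⁻¹ * x * g ∈ K := by
  refine ⟨K.comap (MulAut.conj g⁻¹).toMonoidHom ?_, fun x hx => ?_⟩
  · show Continuous (fun x => g⁻¹ * x * (g⁻¹)⁻¹)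
    fun_prop
  · have h : g⁻¹ * x * (g⁻¹)⁻¹ ∈ K := hx
    rwa [inv_inv] at h

variable {L M : TG}

/-- The function `f` on `M` with values in `V` satisfies `f (p m) = δ (p) p f (m)` for `p`
in `P`, is invariant on the right under an open subgroup, and has compact support modulo `P`. -/
structure IsInd (P : Para L M) (V : SRep L) (f : M.T → V.V) : Prop where
  left : ∀ p m, f (P.inc p * m) = P.δ p • V.act (P.proj p) (f m)
  right : ∃ K : OpenSubgroup M.T, ∀ m, ∀ h ∈ K, f (m * h) = f m
  supp : ∃ C : Set M.T, IsCompact C ∧ ∀ m, f m ≠ 0 → ∃ p, ∃ c ∈ C, P.inc p * c = m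

section

variable (P : Para L M) (V : SRep L)

theorem IsInd.zero : IsInd P V 0 where
  left p m := by
    rw [Pi.zero_apply, Pi.zero_apply, (V.lin _).map_zero, smul_zero]
  right := ⟨⊤, fun _ _ _ => rfl⟩
  supp := ⟨∅, isCompact_empty, fun _ hm => absurd rfl hm⟩

theorem IsInd.add {f g : M.T → V.V} (hf : IsInd P V f) (hg : IsInd P V g) :
    IsInd P V (f + g) where
  left p m := by
    rw [Pi.add_apply, Pi.add_apply, hf.left, hg.left, (V.lin _).map_add, smul_add]
  right := by
    obtain ⟨K, hK⟩ := hf.right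
    obtain ⟨K', hK'⟩ := hg.right
    refine ⟨K ⊓ K', fun m h hh => ?_⟩
    rw [Pi.add_apply, Pi.add_apply, hK m h hh.1, hK' m h hh.2]
  supp := by
    obtain ⟨C, hC, h1⟩ := hf.supp
    obtain ⟨D, hD, h2⟩ := hg.supp
    refine ⟨C ∪ D, hC.union hD, fun m hm => ?_⟩
    by_cases h0 : f m = 0
    · have h3 : g m ≠ 0 := by
        intro h4
        apply hm
        rw [Pi.add_apply, h0, h4, add_zero]
      obtain ⟨p, c, hc, h⟩ := h2 m h3
      exact ⟨p, c, Or.inr hc, h⟩
    · obtain ⟨p, c, hc, h⟩ := h1 m h0
      exact ⟨p, c, Or.inl hc, h⟩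

theorem IsInd.smul (r : ℂ) {f : M.T → V.V} (hf : IsInd P V f) : IsInd P V (r • f) where
  left p m := by
    rw [Pi.smul_apply, Pi.smul_apply, hf.left, (V.lin _).map_smul, smul_comm]
  right := by
    obtain ⟨K, hK⟩ := hf.right
    exact ⟨K, fun m h hh => by rw [Pi.smul_apply, Pi.smul_apply, hK m h hh]⟩
  supp := by
    obtain ⟨C, hC, h1⟩ := hf.supp
    refine ⟨C, hC, fun m hm => h1 m fun h0 => hm ?_⟩
    rw [Pi.smul_apply, h0, smul_zero]

/-- The space of the induced representation. -/
def indSpace : Submodule ℂ (M.T → V.V) where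
  carrier := IsInd P V
  zero_mem' := IsInd.zero P V
  add_mem' := IsInd.add P V
  smul_mem' := IsInd.smul P V

/-- The type of vectors of the induced representation. -/
def IndV : Type := indSpace P V

instance : AddCommGroup (IndV P V) := Submodule.addCommGroup (indSpace P V)

instance : Module ℂ (IndV P V) := Submodule.module (indSpace P V)

end

variable {P : Para L M} {V W : SRep L}

/-- The value at `m` of a vector of the induced representation. -/
def IndV.val (f : IndV P V) (m : M.T) : V.V := Subtype.val f m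

/-- The vector of the induced representation given by a function. -/
def IndV.mk (f : M.T → V.V) (hf : IsInd P V f) : IndV P V := ⟨f, hf⟩

theorem IndV.is (f : IndV P V) : IsInd P V f.val := Subtype.prop f

theorem IndV.ext {f g : IndV P V} (h : ∀ m, f.val m = g.val m) : f = g := Subtype.ext (funext h)

theorem IndV.translate (h : M.T) (f : IndV P V) : IsInd P V (fun m => f.val (m * h)) where
  left p m := by rw [mul_assoc, f.is.left]
  right := by
    obtain ⟨K, hK⟩ := f.is.right
    obtain ⟨K', hK'⟩ := exists_conj K h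
    refine ⟨K', fun m x hx => ?_⟩
    have h1 : m * x * h = m * h * (h⁻¹ * x * h) := by group
    rw [h1, hK _ _ (hK' x hx)]
  supp := by
    obtain ⟨C, hC, h1⟩ := f.is.supp
    refine ⟨(fun c => c * h⁻¹) '' C, hC.image (by fun_prop), fun m hm => ?_⟩
    obtain ⟨p, c, hc, h2⟩ := h1 (m * h) hm
    refine ⟨p, c * h⁻¹, ⟨c, hc, rfl⟩, ?_⟩
    rw [← mul_assoc, h2, mul_inv_cancel_right]

/-- The action by right translations. -/
def IndV.act (h : M.T) (f : IndV P V) : IndV P V := IndV.mk _ (IndV.translate h f)

theorem IndV.act_lin (h : M.T) : IsLin (IndV.act (P := P) (V := V) h) := fun _ _ _ => rfl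

theorem IndV.act_one (f : IndV P V) : IndV.act 1 f = f :=
  IndV.ext fun m => congrArg f.val (mul_one m)

theorem IndV.act_mul (g h : M.T) (f : IndV P V) :
    IndV.act (g * h) f = IndV.act g (IndV.act h f) :=
  IndV.ext fun m => congrArg f.val (mul_assoc m g h).symm

theorem IndV.smooth (f : IndV P V) : ∃ K : OpenSubgroup M.T, ∀ h ∈ K, IndV.act h f = f :=
  f.is.right.imp fun _ hK g hg => IndV.ext fun m => hK m g hg

/-- The induced representation: the action by right translations. -/
def indObj (P : Para L M) (V : SRep L) : SRep M where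
  V := IndV P V
  act := IndV.act
  lin := IndV.act_lin
  one := IndV.act_one
  mul := IndV.act_mul
  smooth := IndV.smooth

theorem IndV.isMap (φ : SHom V W) (f : IndV P V) : IsInd P W (fun m => φ.ap (f.val m)) where
  left p m := by
    rw [f.is.left, φ.is.1.map_smul, φ.is.2]
  right := by
    obtain ⟨K, hK⟩ := f.is.right
    exact ⟨K, fun m h hh => by rw [hK m h hh]⟩
  supp := by
    obtain ⟨C, hC, h1⟩ := f.is.supp
    refine ⟨C, hC, fun m hm => h1 m fun h0 => hm ?_⟩
    show φ.ap (f.val m) = 0
    rw [h0, φ.is.1.map_zero]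

/-- Functoriality of the induced representation. -/
def IndV.map (P : Para L M) (φ : SHom V W) (f : IndV P V) : IndV P W := IndV.mk _ (IndV.isMap φ f)

theorem IndV.map_is (P : Para L M) (φ : SHom V W) :
    IsHom (indObj P V) (indObj P W) (IndV.map P φ) :=
  ⟨fun _ _ _ => IndV.ext fun _ => φ.is.1 _ _ _, fun _ _ => rfl⟩

/-- Functoriality of induction. -/
def indMap (P : Para L M) (φ : SHom V W) : SHom (indObj P V) (indObj P W) :=
  SHom.mk _ (IndV.map_is P φ)

section

variable (P : Para L M) (Q : SRep L → Prop) (Q' : SRep M → Prop) (h : ∀ V, Q V → Q' (indObj P V))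

/-- Induction with compact support on objects. -/
def indO (X : Cls Q) : Cls Q' := Cls.mk _ (h _ X.prop)

/-- Induction with compact support on morphisms. -/
def indM {X Y : Cls Q} (φ : X ⟶ Y) : indO P Q Q' h X ⟶ indO P Q Q' h Y :=
  Cls.hom (indMap P (Cls.un φ))

theorem indM_id (X : Cls Q) : indM P Q Q' h (𝟙 X) = 𝟙 _ := rfl

theorem indM_comp {X Y Z : Cls Q} (a : X ⟶ Y) (b : Y ⟶ Z) :
    indM P Q Q' h (a ≫ b) = indM P Q Q' h a ≫ indM P Q Q' h b := rfl

/-- Induction with compact support, on classes of representations. -/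
def ind : Cls Q ⥤ Cls Q' where
  obj := indO P Q Q' h
  map := indM P Q Q' h
  map_id := indM_id P Q Q' h
  map_comp := indM_comp P Q Q' h

end

end Smooth

end TwistDescent
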