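import Pool.Agent.Lib.MP_7428c0_nt.G.Restr

/-!
# Interchange of Clifford theory and induction
-/

set_option autoImplicit false

namespace TwistDescent

namespace Smooth

open CategoryTheory SRep

section

variable {L M : TG} {Γ : CG} {dL : Deg L Γ} {dM : Deg M Γ}

/-- The topological conditions of `ParaTop`. -/
structure ParaOver.Topological (P : ParaOver dL dM) : Prop where
  lift_open : ∀ K : OpenSubgroup M.T, ∃ K' : OpenSubgroup L.T, ∀ l ∈ K', ∃ p, P.proj p = l ∧
    P.inc p ∈ K ∧ P.δ p = 1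
  proj_compact : ∀ C : Set M.T, IsCompact C → ∃ D : Set L.T, IsCompact D ∧
    ∀ p, P.inc p ∈ C → P.proj p ∈ D

theorem ParaTop.topological (P : ParaTop dL dM) : P.toParaOver.Topological :=
  ⟨P.lift_open, P.proj_compact⟩

variable [NonarchimedeanGroup M.T] [LocallyCompactSpace M.T]

/-- The support of an iterated induction. -/
theorem supp_up {P : ParaOver dL dM} {V : SRep (Ker dL)}
    (F : (indObj (kerPara dM).toPara (indObj (restr P) V)).V) :
    ∃ C : Set M.T, IsCompact C ∧ ∀ m, val2 F m 1 ≠ 0 → ∃ p : P.K, ∃ c ∈ C,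
      P.inc (P.val p) * c = m := by
  obtain ⟨C, hC, h1⟩ := val_supp F
  obtain ⟨K₀, hK₀⟩ := val_right F
  obtain ⟨K, hKc, hKK₀⟩ := exists_compact_open (K₀.isOpen.mem_nhds K₀.one_mem')
  obtain ⟨t, ht⟩ := exists_finite_cover K hC
  have h2 : ∀ g : M.T, ∃ D : Set (Ker dM).T, IsCompact D ∧ ∀ n,
      val (P := restr P) (V := V) (val F g) n ≠ 0 →
      ∃ p : P.K, ∃ c ∈ D, P.incK p * c = n := fun g => val_supp (P := restr P) (V := V) (val F g)
  choose D hD hD' using h2
  have hcont : ∀ g : M.T, Continuous (fun x : (Ker dM).T × M.T => Ker.val x.1 * g * x.2) := by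
    intro g
    have h := continuous_kerVal dM
    fun_prop
  refine ⟨⋃ g ∈ t, (fun x : (Ker dM).T × M.T => Ker.val x.1 * g * x.2) '' (D g ×ˢ (K : Set M.T)),
    t.isCompact_biUnion fun g _ => ((hD g).prod hKc).image (hcont g), fun m hm => ?_⟩
  have h3 : val F m ≠ 0 := by
    intro h0
    apply hm
    show val (val F m) 1 = 0
    rw [h0, val_zero]
  obtain ⟨n, c, hc, rfl⟩ := h1 m h3
  change (Ker dM).T at n
  obtain ⟨g, hg, x, hx, rfl⟩ := ht c hc
  have h4 : val2 F (Ker.val n * (g * x)) 1 = val (P := restr P) (V := V) (val F g) n := by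
    have h5 : val2 F (Ker.val n * (g * x)) 1 = val2 F (Ker.val n * g) 1 := by
      show val (P := restr P) (V := V) (val F (Ker.val n * (g * x))) 1 =
        val (P := restr P) (V := V) (val F (Ker.val n * g)) 1
      rw [← mul_assoc, hK₀ _ x (hKK₀ hx)]
    rw [h5, val2_ker, one_mul]
    rfl
  have hm' : val2 F (Ker.val n * (g * x)) 1 ≠ 0 := hm
  rw [h4] at hm'
  obtain ⟨p, y, hy, h6⟩ := hD' g n hm'
  refine ⟨p, Ker.val y * g * x, Set.mem_iUnion₂.2 ⟨g, hg, (y, x), ⟨hy, hx⟩, rfl⟩, ?_⟩
  have h7 : P.inc (P.val p) * Ker.val y = Ker.val n := congrArg Ker.val h6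
  show P.inc (P.val p) * (Ker.val y * g * x) = Ker.val n * (g * x)
  rw [← h7]
  group

/-- An element of `P` over a given element of `L`. -/
noncomputable def lft (P : ParaOver dL dM) (l : L.T) : P.P := (P.proj_surj l).choose

omit [NonarchimedeanGroup M.T] [LocallyCompactSpace M.T] in
theorem proj_lft (P : ParaOver dL dM) (l : L.T) : P.proj (lft P l) = l :=
  (P.proj_surj l).choose_spec

/-- The values of the image under `up`. -/
noncomputable def upFun (P : ParaOver dL dM) (V : SRep (Ker dL))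
    (F : (indObj (kerPara dM).toPara (indObj (restr P) V)).V) (m : M.T) (l : L.T) : V.V :=
  (P.δ (lft P l))⁻¹ • val2 F (P.inc (lft P l) * m) 1

omit [NonarchimedeanGroup M.T] [LocallyCompactSpace M.T] in
theorem upFun_eq {P : ParaOver dL dM} {V : SRep (Ker dL)}
    (F : (indObj (kerPara dM).toPara (indObj (restr P) V)).V) (m : M.T) (l : L.T) (p : P.P)
    (hp : P.proj p = l) : upFun P V F m l = (P.δ p)⁻¹ • val2 F (P.inc p * m) 1 :=
  val2_indep F m ((proj_lft P l).trans hp.symm)

omit [NonarchimedeanGroup M.T] [LocallyCompactSpace M.T] in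
theorem upFun_left {P : ParaOver dL dM} {V : SRep (Ker dL)}
    (F : (indObj (kerPara dM).toPara (indObj (restr P) V)).V) (m : M.T) (n : (Ker dL).T)
    (l : L.T) : upFun P V F m (Ker.val n * l) = V.act n (upFun P V F m l) := by
  obtain ⟨p, rfl⟩ := P.proj_surj l
  obtain ⟨q, rfl⟩ := P.projK_surj n
  have hq1 : dM.f (P.inc (P.val q)) = 1 := P.prop q
  rw [upFun_eq F m (P.proj p) p rfl,
    upFun_eq F m (Ker.val (P.projK q) * P.proj p) (P.val q * p) (P.proj_mul _ _), P.inc_mul,
    mul_assoc, val2_inc F (P.inc p * m) (P.val q) hq1]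
  have h1 : P.projK q = Ker.mk (P.proj (P.val q)) ((P.compat (P.val q)).trans hq1) := rfl
  rw [← h1, smul_smul, P.δ_mul, mul_inv, mul_comm (P.δ (P.val q))⁻¹,
    inv_mul_cancel_right₀ (P.δ_ne _), V.act_smul]

omit [NonarchimedeanGroup M.T] [LocallyCompactSpace M.T] in
theorem upFun_inc {P : ParaOver dL dM} {V : SRep (Ker dL)}
    (F : (indObj (kerPara dM).toPara (indObj (restr P) V)).V) (m : M.T) (q : P.P) (l : L.T) :
    upFun P V F (P.inc q * m) l = P.δ q • upFun P V F m (l * P.proj q) := by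
  obtain ⟨p, rfl⟩ := P.proj_surj l
  rw [upFun_eq F _ (P.proj p) p rfl, upFun_eq F m _ (p * q) (P.proj_mul _ _), P.inc_mul,
    mul_assoc, smul_smul, P.δ_mul, mul_inv, mul_comm (P.δ p)⁻¹,
    mul_inv_cancel_left₀ (P.δ_ne q)]

omit [NonarchimedeanGroup M.T] [LocallyCompactSpace M.T] in
theorem upFun_smooth {P : ParaOver dL dM} (hP : P.Topological) {V : SRep (Ker dL)}
    (F : (indObj (kerPara dM).toPara (indObj (restr P) V)).V) (m : M.T) :
    ∃ K : OpenSubgroup L.T, ∀ (l : L.T), ∀ h ∈ K, upFun P V F m (l * h) = upFun P V F m l := by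
  obtain ⟨K, hK⟩ := val_right F
  obtain ⟨K', hK'⟩ := exists_conj K m
  obtain ⟨K'', hK''⟩ := hP.lift_open K'
  refine ⟨K'', fun l h hh => ?_⟩
  obtain ⟨p, rfl, hp1, hp2⟩ := hK'' h hh
  obtain ⟨q, rfl⟩ := P.proj_surj l
  rw [upFun_eq F m (P.proj q) q rfl, upFun_eq F m (P.proj q * P.proj p) (q * p) (P.proj_mul _ _),
    P.δ_mul, hp2, mul_one, P.inc_mul]
  have h1 : P.inc q * P.inc p * m = P.inc q * m * (m⁻¹ * P.inc p * m) := by group
  have h2 : val2 F (P.inc q * P.inc p * m) 1 = val2 F (P.inc q * m) 1 := by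
    rw [h1]
    show val (P := restr P) (V := V) (val F (P.inc q * m * (m⁻¹ * P.inc p * m))) 1 =
      val (P := restr P) (V := V) (val F (P.inc q * m)) 1
    rw [hK _ _ (hK' _ hp1)]
  rw [h2]

theorem upFun_supp {P : ParaOver dL dM} (hP : P.Topological) {V : SRep (Ker dL)}
    (F : (indObj (kerPara dM).toPara (indObj (restr P) V)).V) (m : M.T) :
    SuppCond (kerPara dL).toPara (upFun P V F m) := by
  obtain ⟨C, hC, h1⟩ := supp_up F
  obtain ⟨D, hD, h2⟩ := hP.proj_compact ((fun c => c * m⁻¹) '' C) (hC.image (by fun_prop))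
  refine ⟨D, hD, fun l hl => ?_⟩
  obtain ⟨q, rfl⟩ := P.proj_surj l
  rw [upFun_eq F m (P.proj q) q rfl] at hl
  have h3 : val2 F (P.inc q * m) 1 ≠ 0 := by
    intro h0
    apply hl
    rw [h0, smul_zero]
  obtain ⟨p, c, hc, h4⟩ := h1 _ h3
  have h5 : P.inc ((P.val p)⁻¹ * q) = c * m⁻¹ := by
    rw [P.inc_mul, P.inc_inv, inv_mul_eq_iff_eq_mul, ← mul_assoc, h4, mul_inv_cancel_right]
  refine ⟨P.projK p, P.proj ((P.val p)⁻¹ * q), h2 _ (by
    rw [h5]
    exact ⟨c, hc, rfl⟩), ?_⟩
  show P.proj (P.val p) * P.proj ((P.val p)⁻¹ * q) = P.proj q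
  rw [← P.proj_mul, mul_inv_cancel_left]

/-- From the iterated induction through the kernel of `dM` to the one through `L`. -/
noncomputable def up {P : ParaOver dL dM} (hP : P.Topological) (V : SRep (Ker dL))
    (F : (indObj (kerPara dM).toPara (indObj (restr P) V)).V) :
    (indObj P.toPara (indObj (kerPara dL).toPara V)).V :=
  mkInd (P := P.toPara) (V := indObj (kerPara dL).toPara V)
    (fun m => mkInd (P := (kerPara dL).toPara) (V := V) (upFun P V F m)
    (fun n l => by
      rw [show (kerPara dL).δ n = 1 from rfl, one_smul]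
      exact upFun_left F m n l)
    (upFun_smooth hP F m) (upFun_supp hP F m))
  (fun q m => ind_ext fun l => upFun_inc F m q l)
  (by
    obtain ⟨K, hK⟩ := val_right F
    refine ⟨K, fun m h hh => ind_ext fun l => ?_⟩
    show (P.δ (lft P l))⁻¹ • val (P := restr P) (V := V) (val F (P.inc (lft P l) * (m * h))) 1 =
      (P.δ (lft P l))⁻¹ • val (P := restr P) (V := V) (val F (P.inc (lft P l) * m)) 1
    rw [← mul_assoc, hK _ h hh])
  (by
    obtain ⟨C, hC, hC'⟩ := supp_up F
    refine ⟨C, hC, fun m hm => ?_⟩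
    by_contra hno
    apply hm
    apply ind_ext
    intro l
    show (P.δ (lft P l))⁻¹ • val2 F (P.inc (lft P l) * m) 1 = 0
    have h0 : val2 F (P.inc (lft P l) * m) 1 = 0 := by
      by_contra h0
      obtain ⟨p, c, hc, h6⟩ := hC' _ h0
      refine hno ⟨(lft P l)⁻¹ * P.val p, c, hc, ?_⟩
      rw [P.inc_mul, mul_assoc, h6, P.inc_inv, inv_mul_cancel_left]
    rw [h0, smul_zero])

theorem val2'_up {P : ParaOver dL dM} (hP : P.Topological) (V : SRep (Ker dL))
    (F : (indObj (kerPara dM).toPara (indObj (restr P) V)).V) (m : M.T) (l : L.T) :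
    val2' (up hP V F) m l = upFun P V F m l := rfl

omit [NonarchimedeanGroup M.T] [LocallyCompactSpace M.T] in
theorem val2'_ker {P : ParaOver dL dM} {V : SRep (Ker dL)}
    (f : (indObj P.toPara (indObj (kerPara dL).toPara V)).V) (m : M.T) (n : (Ker dL).T)
    (l : L.T) : val2' f m (Ker.val n * l) = V.act n (val2' f m l) :=
  val_ker (V := V) (val f m) n l

omit [NonarchimedeanGroup M.T] [LocallyCompactSpace M.T] in
theorem val2'_inc {P : ParaOver dL dM} {V : SRep (Ker dL)}
    (f : (indObj P.toPara (indObj (kerPara dL).toPara V)).V) (m : M.T) (q : P.P) (l : L.T) :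
    val2' f (P.inc q * m) l = P.δ q • val2' f m (l * P.proj q) :=
  congrArg (fun F => val (P := (kerPara dL).toPara) (V := V) F l) (val_left f q m)

/-- The support of the other iterated induction. -/
theorem supp_down_aux {P : ParaOver dL dM} (hP : P.Topological) {V : SRep (Ker dL)}
    (f : (indObj P.toPara (indObj (kerPara dL).toPara V)).V) :
    ∃ C : Set M.T, IsCompact C ∧ ∀ m, val2' f m 1 ≠ 0 → ∃ p : P.K, ∃ c ∈ C,
      P.inc (P.val p) * c = m := by
  obtain ⟨C, hC, h1⟩ := val_supp f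
  obtain ⟨K₀, hK₀⟩ := val_right f
  obtain ⟨K, hKc, hKK₀⟩ := exists_compact_open (K₀.isOpen.mem_nhds K₀.one_mem')
  obtain ⟨t, ht⟩ := exists_finite_cover K hC
  obtain ⟨K', hK'⟩ := hP.lift_open K
  have h2 : ∀ g : M.T, ∃ s : Finset L.T, ∀ l,
      val (P := (kerPara dL).toPara) (V := V) (val f g) l ≠ 0 →
      ∃ n : (Ker dL).T, ∃ l' ∈ s, ∃ z ∈ K', Ker.val n * (l' * z) = l := by
    intro g
    obtain ⟨D, hD, h3⟩ := val_supp (P := (kerPara dL).toPara) (V := V) (val f g)
    obtain ⟨s, hs⟩ := exists_finite_cover K' hD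
    refine ⟨s, fun l hl => ?_⟩
    obtain ⟨n, y, hy, rfl⟩ := h3 l hl
    obtain ⟨l', hl', z, hz, rfl⟩ := hs y hy
    exact ⟨n, l', hl', z, hz, rfl⟩
  choose s hs using h2
  have hcont : ∀ (g : M.T) (l : L.T), Continuous
      (fun x : M.T × M.T => P.inc (lft P l) * x.1 * g * x.2) := by
    intro g l
    fun_prop
  refine ⟨⋃ g ∈ t, ⋃ l ∈ s g, (fun x : M.T × M.T =>
      P.inc (lft P l) * x.1 * g * x.2) '' ((K : Set M.T) ×ˢ (K : Set M.T)),
    t.isCompact_biUnion fun g _ => (s g).isCompact_biUnion fun l _ =>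
      (hKc.prod hKc).image (hcont g l), fun m hm => ?_⟩
  have h3 : val f m ≠ 0 := by
    intro h0
    apply hm
    show val (P := (kerPara dL).toPara) (V := V) (val f m) 1 = 0
    rw [h0, val_zero]
  obtain ⟨p, c, hc, rfl⟩ := h1 m h3
  obtain ⟨g, hg, x, hx, rfl⟩ := ht c hc
  have h4 : val2' f (P.inc p * (g * x)) 1 = P.δ p • val2' f g (P.proj p) := by
    have h5 : val2' f (P.inc p * (g * x)) 1 = val2' f (P.inc p * g) 1 := by
      show val (P := (kerPara dL).toPara) (V := V) (val f (P.inc p * (g * x))) 1 =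
        val (P := (kerPara dL).toPara) (V := V) (val f (P.inc p * g)) 1
      rw [← mul_assoc, hK₀ _ x (hKK₀ hx)]
    rw [h5, val2'_inc, one_mul]
  rw [h4] at hm
  have h5 : val (P := (kerPara dL).toPara) (V := V) (val f g) (P.proj p) ≠ 0 := by
    intro h0
    apply hm
    show P.δ p • val (P := (kerPara dL).toPara) (V := V) (val f g) (P.proj p) = 0
    rw [h0, smul_zero]
  obtain ⟨n, l, hl, z, hz, h6⟩ := hs g _ h5
  obtain ⟨q, rfl, hq, -⟩ := hK' z hz
  set r := lft P l with hr
  have hr' : P.proj r = l := proj_lft P l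
  have h7 : P.proj (p * q⁻¹ * r⁻¹) = Ker.val n := by
    rw [P.proj_mul, P.proj_mul, P.proj_inv, P.proj_inv, hr', ← h6]
    group
  have h8 : dM.f (P.inc (p * q⁻¹ * r⁻¹)) = 1 := by
    rw [← P.compat, h7]
    exact Ker.prop n
  refine ⟨P.mkK (p * q⁻¹ * r⁻¹) h8, P.inc r * P.inc q * g * x, Set.mem_iUnion₂.2 ⟨g, hg,
    Set.mem_iUnion₂.2 ⟨l, hl, (P.inc q, x), ⟨hq, hx⟩, rfl⟩⟩, ?_⟩
  show P.inc (p * q⁻¹ * r⁻¹) * (P.inc r * P.inc q * g * x) = P.inc p * (g * x)
  rw [P.inc_mul, P.inc_mul, P.inc_inv, P.inc_inv]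
  group

/-- The support of the restriction to the kernel. -/
theorem supp_down {P : ParaOver dL dM} (hP : P.Topological) {V : SRep (Ker dL)}
    (f : (indObj P.toPara (indObj (kerPara dL).toPara V)).V) (m : M.T) :
    SuppCond (restr P) (fun n : (Ker dM).T => val2' f (Ker.val n * m) 1) := by
  obtain ⟨C, hC, h1⟩ := supp_down_aux hP f
  refine ⟨Ker.val ⁻¹' ((fun c => c * m⁻¹) '' C),
    (isClosedEmbedding_ker dM).isCompact_preimage (hC.image (by fun_prop)), fun n hn => ?_⟩
  obtain ⟨p, c, hc, h2⟩ := h1 _ hn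
  have h3 : Ker.val ((P.incK p)⁻¹ * n) = c * m⁻¹ := by
    show (P.inc (P.val p))⁻¹ * Ker.val n = c * m⁻¹
    rw [inv_mul_eq_iff_eq_mul, ← mul_assoc, h2, mul_inv_cancel_right]
  refine ⟨p, (P.incK p)⁻¹ * n, ?_, mul_inv_cancel_left _ _⟩
  show Ker.val ((P.incK p)⁻¹ * n) ∈ (fun c => c * m⁻¹) '' C
  rw [h3]
  exact ⟨c, hc, rfl⟩

/-- From the iterated induction through `L` to the one through the kernel of `dM`. -/
noncomputable def down {P : ParaOver dL dM} (hP : P.Topological) (V : SRep (Ker dL))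
    (f : (indObj P.toPara (indObj (kerPara dL).toPara V)).V) :
    (indObj (kerPara dM).toPara (indObj (restr P) V)).V :=
  mkInd (P := (kerPara dM).toPara) (V := indObj (restr P) V)
    (fun m => mkInd (P := restr P) (V := V)
      (fun n : (Ker dM).T => val2' f (Ker.val n * m) 1)
    (fun p n => by
      have h1 : Ker.val (P.incK p * n) * m = P.inc (P.val p) * (Ker.val n * m) := by
        rw [← mul_assoc]
        rfl
      show val2' f (Ker.val (P.incK p * n) * m) 1 =
        P.δ (P.val p) • V.act (P.projK p) (val2' f (Ker.val n * m) 1)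
      rw [h1, val2'_inc, one_mul]
      have h2 := val2'_ker f (Ker.val n * m) (P.projK p) 1
      rw [mul_one] at h2
      exact congrArg (fun v => P.δ (P.val p) • v) h2)
    (by
      obtain ⟨K, hK⟩ := val_right f
      obtain ⟨K', hK'⟩ := exists_conj K m
      refine ⟨K'.comap dM.ker.subtype continuous_subtype_val, fun n x hx => ?_⟩
      have h1 : Ker.val (n * x) * m = Ker.val n * m * (m⁻¹ * Ker.val x * m) := by
        rw [Ker.val_mul]
        group
      show val (P := (kerPara dL).toPara) (V := V) (val f (Ker.val (n * x) * m)) 1 =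
        val (P := (kerPara dL).toPara) (V := V) (val f (Ker.val n * m)) 1
      rw [h1, hK _ _ (hK' (Ker.val x) hx)])
    (supp_down hP f m))
  (fun (n : (Ker dM).T) (m : M.T) => by
    rw [show (kerPara dM).δ n = 1 from rfl, one_smul]
    apply ind_ext
    intro x
    show val2' f (Ker.val x * (Ker.val n * m)) 1 = val2' f (Ker.val (x * n) * m) 1
    rw [Ker.val_mul, mul_assoc])
  (by
    obtain ⟨K, hK⟩ := val_right f
    refine ⟨K, fun m h hh => ind_ext fun n => ?_⟩
    show val (P := (kerPara dL).toPara) (V := V) (val f (Ker.val n * (m * h))) 1 =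
      val (P := (kerPara dL).toPara) (V := V) (val f (Ker.val n * m)) 1
    rw [← mul_assoc, hK _ h hh])
  (by
    obtain ⟨C, hC, h1⟩ := supp_down_aux hP f
    refine ⟨C, hC, fun m hm => ?_⟩
    by_contra hno
    apply hm
    apply ind_ext
    intro n
    show val2' f (Ker.val n * m) 1 = 0
    by_contra h0
    obtain ⟨p, c, hc, h2⟩ := h1 _ h0
    refine hno ⟨n⁻¹ * P.incK p, c, hc, ?_⟩
    show (Ker.val n)⁻¹ * P.inc (P.val p) * c = m
    rw [mul_assoc, h2, inv_mul_cancel_left])

theorem val2_down {P : ParaOver dL dM} (hP : P.Topological) (V : SRep (Ker dL))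
    (f : (indObj P.toPara (indObj (kerPara dL).toPara V)).V) (m : M.T) (n : (Ker dM).T) :
    val2 (down hP V f) m n = val2' f (Ker.val n * m) 1 := rfl

theorem down_up {P : ParaOver dL dM} (hP : P.Topological) (V : SRep (Ker dL))
    (F : (indObj (kerPara dM).toPara (indObj (restr P) V)).V) :
    down hP V (up hP V F) = F := by
  apply val2_ext
  intro m n
  rw [val2_down, val2'_up, upFun_eq F _ 1 1 P.proj_one, P.δ_one, P.inc_one, inv_one, one_smul,
    one_mul, val2_ker, one_mul]

theorem up_down {P : ParaOver dL dM} (hP : P.Topological) (V : SRep (Ker dL))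
    (f : (indObj P.toPara (indObj (kerPara dL).toPara V)).V) :
    up hP V (down hP V f) = f := by
  apply val2'_ext
  intro m l
  obtain ⟨p, rfl⟩ := P.proj_surj l
  rw [val2'_up, upFun_eq _ _ _ p rfl, val2_down]
  rw [show Ker.val (1 : (Ker dM).T) = 1 from rfl, one_mul, val2'_inc, one_mul,
    inv_smul_smul₀ (P.δ_ne p)]

/-- The two iterated inductions are isomorphic. -/
noncomputable def upEquiv {P : ParaOver dL dM} (hP : P.Topological) (V : SRep (Ker dL)) :
    (indObj (kerPara dM).toPara (indObj (restr P) V)).V ≃ₗ[ℂ]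
      (indObj P.toPara (indObj (kerPara dL).toPara V)).V where
  toFun := up hP V
  map_add' F F' := val2'_ext fun m l => smul_add _ _ _
  map_smul' r F := val2'_ext fun m l => by
    show (P.δ (lft P l))⁻¹ • (r • val2 F (P.inc (lft P l) * m) 1) =
      r • ((P.δ (lft P l))⁻¹ • val2 F (P.inc (lft P l) * m) 1)
    rw [smul_comm]
  invFun := down hP V
  left_inv := down_up hP V
  right_inv := up_down hP V

/-- The two iterated inductions are isomorphic. -/
noncomputable def upIso {P : ParaOver dL dM} (hP : P.Topological) (V : SRep (Ker dL)) :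
    indObj (kerPara dM).toPara (indObj (restr P) V) ≅
      indObj P.toPara (indObj (kerPara dL).toPara V) :=
  SRep.mkIso (upEquiv hP V) (fun g F => val2'_ext fun m l => by
    show (P.δ (lft P l))⁻¹ • val2 F (P.inc (lft P l) * m * g) 1 =
      (P.δ (lft P l))⁻¹ • val2 F (P.inc (lft P l) * (m * g)) 1
    rw [mul_assoc])

theorem upIso_lin {P : ParaOver dL dM} (hP : P.Topological) (V : SRep (Ker dL))
    (a : Tw Γ) :
    (((cliff dM).obj ((indF (restr P)).obj V)).lin a).hom ≫ (tw dM a).map (upIso hP V).hom =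
      (upIso hP V).hom ≫ ((mapEqObj (indD P) ((cliff dL).obj V)).lin a).hom := by
  apply SRep.hom_ext
  intro F
  change (indObj (kerPara dM).toPara (indObj (restr P) V)).V at F
  apply val2'_ext
  intro m l
  obtain ⟨p, rfl⟩ := P.proj_surj l
  have h1 : upFun P V (mulChr _ a F) m (P.proj p) =
      (chr dM a m)⁻¹ • (chr dL a (P.proj p))⁻¹ • upFun P V F m (P.proj p) := by
    rw [upFun_eq _ _ _ p rfl, upFun_eq _ _ _ p rfl]
    have h2 : val2 (mulChr _ a F) (P.inc p * m) 1 =
        (chr dM a (P.inc p * m))⁻¹ • val2 F (P.inc p * m) 1 := rfl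
    rw [h2, chr_compat, chr_mul, mul_inv, mul_smul]
    rw [smul_comm (P.δ p)⁻¹, smul_comm (P.δ p)⁻¹, smul_comm _ ((chr dM a m)⁻¹)]
  exact h1

/-- Clifford theory commutes with induction. -/
noncomputable def interchange {P : ParaOver dL dM} (hP : P.Topological) :
    indF (restr P) ⋙ cliff dM ≅ cliff dL ⋙ mapEq (indD P) :=
  NatIso.ofComponents (fun V => Equivariant.mkIso (x := (cliff dM).obj ((indF (restr P)).obj V))
    (y := mapEqObj (indD P) ((cliff dL).obj V)) (upIso hP V) (upIso_lin hP V))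
    (fun {V W} φ => by
      apply Equivariant.Hom.ext
      apply SRep.hom_ext
      intro F
      change (indObj (kerPara dM).toPara (indObj (restr P) V)).V at F
      apply val2'_ext
      intro m l
      exact (map_smul (toLin φ) ((P.δ (lft P l))⁻¹)
        (val2 F (P.inc (lft P l) * m) 1)).symm)

end

end Smooth

end TwistDescent
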