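import Pool.Agent.Lib.MP_7428c0_nt.G.Conj

/-!
# Classes of representations closed under twists
-/

set_option autoImplicit false

namespace TwistDescent

namespace Smooth

open CategoryTheory SRep

/-- The class `Q` is closed under isomorphisms and twists. -/
def ClosedTw {M : TG} {Γ : CG} (d : Deg M Γ) (Q : SRep M → Prop) : Prop :=
  ∀ (V V' : SRep M) (a : Tw Γ), IsTwistOf d a V V' → Q V → Q V'

variable {L M : TG} {Γ : CG} {d : Deg M Γ} {dL : Deg L Γ} {Q : SRep M → Prop}
  (hQ : ClosedTw d Q)

theorem isTwistOf_zero {V V' : SRep M} (e : V ≅ V') : IsTwistOf d (0 : Tw Γ) V V' := by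
  refine ⟨fun v => toLin e.hom v, ?_, ?_, fun g v => ?_⟩
  · refine Function.bijective_iff_has_inverse.2 ⟨fun v => toLin e.inv v, fun v => ?_, fun v => ?_⟩
    · show toLin e.inv (toLin e.hom v) = v
      rw [← toLin_comp, Iso.hom_inv_id, toLin_id]
    · show toLin e.hom (toLin e.inv v) = v
      rw [← toLin_comp, Iso.inv_hom_id, toLin_id]
  · intro r v w
    show toLin e.hom (r • v + w) = r • toLin e.hom v + toLin e.hom w
    rw [map_add, map_smul]
  · show toLin e.hom (V.act g v) = (1 : ℂ) • V'.act g (toLin e.hom v)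
    rw [toLin_comm, one_smul]

include hQ in
theorem ClosedTw.iso {V V' : SRep M} (e : V ≅ V') (h : Q V) : Q V' :=
  hQ V V' 0 (isTwistOf_zero e) h

theorem isTwistOf_twObj (V : SRep M) (a : Tw Γ) : IsTwistOf d (-a) V (twObj d a V) := by
  refine ⟨fun v => v, Function.bijective_id, fun r v w => rfl, fun g v => ?_⟩
  show V.act g v = (a.char (d.f g))⁻¹ • a.char (d.f g) • V.act g v
  rw [smul_smul, inv_mul_cancel₀ (a.ne _), one_smul]

include hQ in
theorem ClosedTw.tw {V : SRep M} (a : Tw Γ) (h : Q V) : Q (twObj d a V) :=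
  hQ V _ (-a) (isTwistOf_twObj V a) h

include hQ in
theorem ClosedTw.conj (g : M.T) (V : SRep (Ker d)) (h : Q (indObj (kerPara d).toPara V)) :
    Q (indObj (kerPara d).toPara (conjObj g V)) := hQ.iso (conjIso d g V).symm h

variable [NonarchimedeanGroup M.T] [LocallyCompactSpace M.T]

include hQ in
theorem ClosedTw.ind (P : ParaTop dL d) (V : SRep (Ker dL))
    (h : Q (indObj P.toPara (indObj (kerPara dL).toPara V))) :
    Q (indObj (kerPara d).toPara (indObj (restr P.toParaOver) V)) :=
  hQ.iso (upIso P.topological V).symm h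

include hQ in
theorem ClosedTw.whit (w : ParaTop (Deg.triv pt Γ) d) (h : Q (whit w.toPara)) :
    Q (indObj (kerPara d).toPara (indObj (restr w.toParaOver) (trivRep (Ker (Deg.triv pt Γ))))) :=
  hQ.iso (((Equivariant.forget (DRep d) (Tw Γ)).mapIso (whitIso w.topological)).symm) h

end Smooth

end TwistDescent
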