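import Pool.Agent.Lib.MP_7428c0_nt.G.Ind

/-!
# Characters and kernels
-/

set_option autoImplicit false

namespace TwistDescent

namespace Smooth

open CategoryTheory

/-- A commutative Hausdorff nonarchimedean group. -/
structure CG where
  /-- the underlying type -/
  T : Type
  [grp : CommGroup T]
  [top : TopologicalSpace T]
  [nonarch : NonarchimedeanGroup T]
  [t2 : T2Space T]

attribute [instance] CG.grp CG.top CG.nonarch CG.t2

section chars

variable (Γ : CG)

/-- A smooth character of `Γ`: trivial on an open subgroup. -/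
@[ext]
structure Tw where
  /-- the values -/
  char : Γ.T → ℂ
  mul : ∀ x y, char (x * y) = char x * char y
  ne : ∀ x, char x ≠ 0
  smooth : ∃ K : OpenSubgroup Γ.T, ∀ x ∈ K, char x = 1

variable {Γ}

/-- The product of two characters. -/
instance : Add (Tw Γ) := ⟨fun a b => ⟨fun x => a.char x * b.char x, fun x y => by
  rw [a.mul, b.mul, mul_mul_mul_comm], fun x => mul_ne_zero (a.ne x) (b.ne x), by
  obtain ⟨K, hK⟩ := a.smooth
  obtain ⟨K', hK'⟩ := b.smooth
  exact ⟨K ⊓ K', fun x hx => by rw [hK x hx.1, hK' x hx.2, one_mul]⟩⟩⟩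

/-- The trivial character. -/
instance : Zero (Tw Γ) := ⟨⟨fun _ => 1, fun _ _ => (one_mul 1).symm, fun _ => one_ne_zero,
  ⊤, fun _ _ => rfl⟩⟩

/-- The inverse character. -/
noncomputable instance : Neg (Tw Γ) := ⟨fun a => ⟨fun x => (a.char x)⁻¹, fun x y => by
  rw [a.mul, mul_inv], fun x => inv_ne_zero (a.ne x), by
  obtain ⟨K, hK⟩ := a.smooth
  exact ⟨K, fun x hx => by rw [hK x hx, inv_one]⟩⟩⟩

theorem Tw.assoc (a b c : Tw Γ) : a + b + c = a + (b + c) := Tw.ext (funext fun _ => mul_assoc ..)

theorem Tw.zero_add (a : Tw Γ) : 0 + a = a := Tw.ext (funext fun _ => one_mul _)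

theorem Tw.neg_add (a : Tw Γ) : -a + a = 0 :=
  Tw.ext (funext fun x => inv_mul_cancel₀ (a.ne x))

/-- The group of smooth characters of `Γ`, written additively. -/
noncomputable instance : AddGroup (Tw Γ) := AddGroup.ofLeftAxioms Tw.assoc Tw.zero_add Tw.neg_add

end chars

section kernels

variable {L M : TG} {Γ : CG}

/-- A continuous homomorphism from `G` to `Γ`. -/
structure Deg (G : TG) (Γ : CG) where
  /-- the map -/
  f : G.T → Γ.T
  mul : ∀ g h, f (g * h) = f g * f h
  cont : Continuous f

/-- The kernel of `d`. -/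
def Deg.ker (d : Deg M Γ) : Subgroup M.T := (MonoidHom.mk' d.f d.mul).ker

/-- The kernel of `d`, as a topological group. -/
def Ker (d : Deg M Γ) : TG := ⟨d.ker⟩

/-- The inclusion of the kernel. -/
def Ker.val {d : Deg M Γ} (n : (Ker d).T) : M.T := Subtype.val n

/-- An element of the kernel. -/
def Ker.mk {d : Deg M Γ} (m : M.T) (h : d.f m = 1) : (Ker d).T := ⟨m, h⟩

theorem Ker.prop {d : Deg M Γ} (n : (Ker d).T) : d.f (Ker.val n) = 1 := Subtype.prop n

theorem Ker.ext {d : Deg M Γ} {m n : (Ker d).T} (h : Ker.val m = Ker.val n) : m = n :=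
  Subtype.ext h

theorem Ker.val_mul {d : Deg M Γ} (m n : (Ker d).T) : Ker.val (m * n) = Ker.val m * Ker.val n :=
  rfl

/-- The trivial homomorphism. -/
def Deg.triv (G : TG) (Γ : CG) : Deg G Γ := ⟨fun _ => 1, fun _ _ => (one_mul 1).symm,
  continuous_const⟩

/-- The data for an induction from `L` to `M`, compatible with homomorphisms of `L` and `M`
to `Γ`. -/
structure ParaOver (dL : Deg L Γ) (dM : Deg M Γ) extends Para L M where
  compat : ∀ p, dL.f (proj p) = dM.f (inc p)

/-- Topological conditions, which hold if `P` is a closed subgroup of `M`, the projection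
to `L` is continuous and open, and `δ` is smooth. -/
structure ParaTop (dL : Deg L Γ) (dM : Deg M Γ) extends ParaOver dL dM where
  lift_open : ∀ K : OpenSubgroup M.T, ∃ K' : OpenSubgroup L.T, ∀ l ∈ K', ∃ p, proj p = l ∧
    inc p ∈ K ∧ δ p = 1
  proj_compact : ∀ C : Set M.T, IsCompact C → ∃ D : Set L.T, IsCompact D ∧
    ∀ p, inc p ∈ C → proj p ∈ D

/-- The data for the induction from the kernel of `d` to the group. -/
def kerPara (d : Deg M Γ) : ParaOver (Deg.triv (Ker d) Γ) d where
  P := (Ker d).T
  inc := Ker.val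
  proj n := n
  δ _ := 1
  inc_mul := Ker.val_mul
  proj_mul _ _ := rfl
  proj_surj n := ⟨n, rfl⟩
  δ_mul _ _ := (one_mul 1).symm
  δ_ne _ := one_ne_zero
  compat n := (Ker.prop n).symm

variable {dL : Deg L Γ} {dM : Deg M Γ}

theorem ParaOver.mul (P : ParaOver dL dM) (p q : P.P) :
    dM.f (P.inc (p * q)) = dM.f (P.inc p) * dM.f (P.inc q) := by rw [P.inc_mul, dM.mul]

/-- The subgroup of `P` over the kernels. -/
def ParaOver.ker (P : ParaOver dL dM) : Subgroup P.P :=
  (MonoidHom.mk' (fun p => dM.f (P.inc p)) P.mul).ker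

/-- The subgroup of `P` over the kernels. -/
def ParaOver.K (P : ParaOver dL dM) : Type := P.ker

instance (P : ParaOver dL dM) : Group P.K := Subgroup.toGroup P.ker

/-- The inclusion of the subgroup. -/
def ParaOver.val (P : ParaOver dL dM) (p : P.K) : P.P := Subtype.val p

theorem ParaOver.prop (P : ParaOver dL dM) (p : P.K) : dM.f (P.inc (P.val p)) = 1 :=
  Subtype.prop p

theorem ParaOver.prop' (P : ParaOver dL dM) (p : P.K) : dL.f (P.proj (P.val p)) = 1 :=
  (P.compat _).trans (P.prop p)

/-- The inclusion to the kernel of `dM`. -/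
def ParaOver.incK (P : ParaOver dL dM) (p : P.K) : (Ker dM).T :=
  Ker.mk (P.inc (P.val p)) (P.prop p)

/-- The projection to the kernel of `dL`. -/
def ParaOver.projK (P : ParaOver dL dM) (p : P.K) : (Ker dL).T :=
  Ker.mk (P.proj (P.val p)) (P.prop' p)

theorem ParaOver.incK_mul (P : ParaOver dL dM) (p q : P.K) :
    P.incK (p * q) = P.incK p * P.incK q := Ker.ext (P.inc_mul _ _)

theorem ParaOver.projK_mul (P : ParaOver dL dM) (p q : P.K) :
    P.projK (p * q) = P.projK p * P.projK q := Ker.ext (P.proj_mul _ _)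

theorem ParaOver.δ_mulK (P : ParaOver dL dM) (p q : P.K) :
    P.δ (P.val (p * q)) = P.δ (P.val p) * P.δ (P.val q) := P.δ_mul _ _

theorem ParaOver.projK_surj (P : ParaOver dL dM) (l : (Ker dL).T) : ∃ p, P.projK p = l := by
  obtain ⟨p, hp⟩ := P.proj_surj (Ker.val l)
  exact ⟨⟨p, ((P.compat p).symm.trans (congrArg dL.f hp)).trans (Ker.prop l)⟩, Ker.ext hp⟩

/-- The data for an induction from the kernel of `dL` to the kernel of `dM`. -/
def restr (P : ParaOver dL dM) : Para (Ker dL) (Ker dM) where
  P := P.K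
  inc := P.incK
  proj := P.projK
  δ p := P.δ (P.val p)
  inc_mul := P.incK_mul
  proj_mul := P.projK_mul
  proj_surj := P.projK_surj
  δ_mul := P.δ_mulK
  δ_ne p := P.δ_ne (P.val p)

variable {d : Deg M Γ}

theorem conj_mem (g : M.T) (n : (Ker d).T) : d.f (g * Ker.val n * g⁻¹) = 1 := by
  have h1 : d.f (g * Ker.val n * g⁻¹ * g) = d.f (g * Ker.val n) := by rw [inv_mul_cancel_right]
  rw [d.mul (g * Ker.val n * g⁻¹), d.mul g, Ker.prop, mul_one] at h1
  exact mul_eq_right.1 h1

/-- Conjugation by `g` on the kernel of `d`. -/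
def conjKer (g : M.T) (n : (Ker d).T) : (Ker d).T := Ker.mk (g * Ker.val n * g⁻¹) (conj_mem g n)

theorem conjKer_one (g : M.T) : conjKer (d := d) g 1 = 1 := Ker.ext (by
  show g * 1 * g⁻¹ = 1
  group)

theorem conjKer_mul (g : M.T) (m n : (Ker d).T) :
    conjKer g (m * n) = conjKer g m * conjKer g n := Ker.ext (by
  show g * (Ker.val m * Ker.val n) * g⁻¹ = (g * Ker.val m * g⁻¹) * (g * Ker.val n * g⁻¹)
  group)

/-- The action of `g n g⁻¹`. -/
def conjAct (g : M.T) (V : SRep (Ker d)) (n : (Ker d).T) : V.V → V.V := V.act (conjKer g n)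

theorem conjAct_one (g : M.T) (V : SRep (Ker d)) (v : V.V) : conjAct g V 1 v = v := by
  show V.act (conjKer g 1) v = v
  rw [conjKer_one, V.one]

theorem conjAct_mul (g : M.T) (V : SRep (Ker d)) (m n : (Ker d).T) (v : V.V) :
    conjAct g V (m * n) v = conjAct g V m (conjAct g V n v) := by
  show V.act (conjKer g (m * n)) v = _
  rw [conjKer_mul, V.mul]
  rfl

theorem conjAct_smooth (g : M.T) (V : SRep (Ker d)) (v : V.V) :
    ∃ K : OpenSubgroup (Ker d).T, ∀ n ∈ K, conjAct g V n v = v := by
  obtain ⟨K, hK⟩ := V.smooth v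
  have h : Continuous (MonoidHom.mk' (conjKer (d := d) g) (conjKer_mul g)) := by
    refine Continuous.subtype_mk ?_ _
    show Continuous (fun n : d.ker => g * (n : M.T) * g⁻¹)
    fun_prop
  exact ⟨K.comap _ h, fun n hn => hK _ hn⟩

/-- The conjugate by `g` of a representation `V` of the kernel of `d`: the element `n` acts by
the action of `g n g⁻¹` on `V`. -/
def conjObj (g : M.T) (V : SRep (Ker d)) : SRep (Ker d) where
  V := V.V
  act := conjAct g V
  lin n := V.lin (conjKer g n)
  one := conjAct_one g V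
  mul := conjAct_mul g V
  smooth := conjAct_smooth g V

theorem conj_is (g : M.T) {V W : SRep (Ker d)} (φ : SHom V W) :
    IsHom (conjObj g V) (conjObj g W) φ.ap := ⟨φ.is.1, fun n => φ.is.2 (conjKer g n)⟩

/-- Functoriality of the conjugation. -/
def conjMap (g : M.T) {V W : SRep (Ker d)} (φ : SHom V W) : SHom (conjObj g V) (conjObj g W) :=
  SHom.mk _ (conj_is g φ)

section

variable (g : M.T) (Q : SRep (Ker d) → Prop) (h : ∀ V, Q V → Q (conjObj g V))

/-- The conjugation functor on objects. -/
def conjO (X : Cls Q) : Cls Q := Cls.mk _ (h _ X.prop)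

/-- The conjugation functor on morphisms. -/
def conjM {X Y : Cls Q} (φ : X ⟶ Y) : conjO g Q h X ⟶ conjO g Q h Y :=
  Cls.hom (conjMap g (Cls.un φ))

theorem conjM_id (X : Cls Q) : conjM g Q h (𝟙 X) = 𝟙 _ := rfl

theorem conjM_comp {X Y Z : Cls Q} (a : X ⟶ Y) (b : Y ⟶ Z) :
    conjM g Q h (a ≫ b) = conjM g Q h a ≫ conjM g Q h b := rfl

/-- The conjugation functor on a class of representations of the kernel of `d`. -/
def conj : Cls Q ⥤ Cls Q where
  obj := conjO g Q h
  map := conjM g Q h
  map_id := conjM_id g Q h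
  map_comp := conjM_comp g Q h

end

end kernels

section whittaker

/-- The trivial group. -/
def pt : TG := ⟨Unit⟩

/-- The trivial representation. -/
def trivRep (G : TG) : SRep G where
  V := ℂ
  act _ v := v
  lin _ := IsLin.id
  one _ := rfl
  mul _ _ _ := rfl
  smooth _ := ⟨⊤, fun _ _ => rfl⟩

variable {L M : TG} {Γ : CG} {wL : Para pt L} {wM : Para pt M}

/-- The compact Whittaker space of `M`. -/
def whit (w : Para pt M) : SRep M := indObj w (trivRep pt)

/-- The value of a vector of the compact Whittaker space. -/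
def wv (f : (whit wM).V) (m : M.T) : ℂ := IndV.val (P := wM) (V := trivRep pt) f m

/-- The vector `f'` of the compact Whittaker space is the product of `f` with the character
`a`. -/
def IsMul (d : Deg M Γ) (a : Tw Γ) (f f' : (whit wM).V) : Prop :=
  ∀ m, wv f' m = a.char (d.f m) * wv f m

/-- The endomorphism `z'` of the compact Whittaker space is the twist of `z` by `a`: it takes
`a f` to `a z (f)` for all `f`. -/
def IsTwist (d : Deg M Γ) (a : Tw Γ) (z z' : SHom (whit wM) (whit wM)) : Prop :=
  ∀ f f', IsMul d a f f' → IsMul d a (z.ap f) (z'.ap f')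

/-- The value at `m` and `l` of the image of a vector `f` of the compact Whittaker space of `M`
under an intertwining operator to the representation induced from the compact Whittaker space
of `L`. -/
def ap2 {P : Para L M} (u : SHom (whit wM) (indObj P (whit wL))) (f : (whit wM).V) (m : M.T)
    (l : L.T) : ℂ := wv (IndV.val (u.ap f) m) l

/-- The intertwining operator `u` commutes with the multiplications by smooth characters
of `Γ`. -/
def IsEqVec (dL : Deg L Γ) (dM : Deg M Γ) {P : Para L M}
    (u : SHom (whit wM) (indObj P (whit wL))) : Prop :=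
  ∀ (a : Tw Γ) f f', IsMul dM a f f' → ∀ m l, ap2 u f' m l =
    a.char (dM.f m) * (a.char (dL.f l) * ap2 u f m l)

end whittaker

/-- `V'` is isomorphic to a twist of `V` by the inverse of `a`. -/
def IsTwistOf {M : TG} {Γ : CG} (d : Deg M Γ) (a : Tw Γ) (V V' : SRep M) : Prop :=
  ∃ e : V.V → V'.V, Function.Bijective e ∧ IsLin e ∧
    ∀ g v, e (V.act g v) = a.char (d.f g) • V'.act g (e v)

end Smooth

end TwistDescent
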