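import Pool.Agent.Lib.MP_7428c0_nt.G.Final

/-!
# Descent to the kernels
-/

set_option autoImplicit false

namespace TwistDescent

namespace Smooth

open CategoryTheory Category Levi

universe v u v' u' w

section agree

variable {C : Type u} [Category.{v} C] {A : Type w} [AddGroup A] [HasShift C A] [Preadditive C]
  [Linear ℂ C] [∀ a : A, (shiftFunctor C a).Linear ℂ] {E : Type u'} [Category.{v'} E]

theorem agreeUpTo_of_charTwist (ω : Multiplicative A →* ℂˣ) (T T' : E ⥤ Equivariant C A)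
    (α : T ≅ T' ⋙ charTwist ω) :
    AgreeUpTo (fun a => ((ω (Multiplicative.ofAdd a) : ℂˣ) : ℂ)) T T' := by
  refine ⟨Functor.isoWhiskerRight α (Equivariant.forget C A), fun x a => ?_⟩
  have h1 := Equivariant.Hom.comm (x := T.obj x) (y := charTwistObj ω (T'.obj x))
    (α.hom.app x) a
  have h2 : ∀ f : (T.obj x).obj ⟶ (T'.obj x).obj,
      f ≫ ((charTwistObj ω (T'.obj x)).lin a).hom =
      ((ω (Multiplicative.ofAdd a) : ℂˣ) : ℂ) • (f ≫ ((T'.obj x).lin a).hom) := fun f =>
    Linear.comp_smul (R := ℂ) (T.obj x).obj (T'.obj x).obj ((T'.obj x).obj⟦a⟧)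
      f _ ((T'.obj x).lin a).hom
  exact h1.trans (h2 _)

end agree

namespace LeviSystem

variable {ι : Type} [LE ι] {Γ : CG} (S : LeviSystem ι Γ)

section solve

variable {X : ι → Type u} [∀ M, Category.{v} (X M)]
  [∀ M, HasShift (X M) (Tw Γ)] {spec : ∀ L M : ι, L ≤ M → (X L ⥤ X M)}
  [∀ L M h, (spec L M h).CommShift (Tw Γ)] {O : ∀ M, Equivariant (X M) (Tw Γ)}

/-- Descent to the kernels, from equivariant objects. -/
theorem solves_kernel
    (F : ∀ M, Equivariant (S.R M) (Tw Γ) ⥤ Equivariant (X M) (Tw Γ))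
    (hF : Levi.Solves (fun L M h => mapEq (A := Tw Γ) (S.ind L M h))
      (fun L M h => mapEq (spec L M h)) S.WE O F) :
    Family S.indK (fun L M h => mapEq (spec L M h)) S.WK O (fun M => S.cliff M ⋙ F M) where
  full M := by
    have := S.cliff_full M
    have := hF.full M
    infer_instance
  faithful M := by
    have := S.cliff_faithful M
    have := hF.faithful M
    infer_instance
  whittaker M := by
    obtain ⟨e⟩ := hF.whittaker M
    exact ⟨(F M).mapIso (S.cliffWhit M) ≪≫ e⟩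
  induction L M h := by
    obtain ⟨η⟩ := hF.induction L M h
    exact ⟨(Functor.associator _ _ _).symm ≪≫ Functor.isoWhiskerRight (S.cliffInd L M h) (F M) ≪≫
      Functor.associator _ _ _ ≪≫ Functor.isoWhiskerLeft (S.cliff L) η ≪≫
      (Functor.associator _ _ _).symm⟩

end solve

/-- Clifford theory takes conjugation to the multiplication of the linearizations. -/
theorem cliffConj (M : ι) (g : (S.G M).T) : Nonempty (S.conjK M g ⋙ S.cliff M ≅
    S.cliff M ⋙ charTwist (C := S.R M) (A := Tw Γ) (evTw ((S.d M).f g))) := S.cliffConjD M g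

end LeviSystem

/-- Descent to the kernels. -/
theorem descent {ι : Type} [LE ι] {Γ : CG} (S : LeviSystem ι Γ) {X : ι → Type u}
    [∀ M, Category.{v} (X M)] [∀ M, Preadditive (X M)] [∀ M, Linear ℂ (X M)]
    [∀ M, HasShift (X M) (Tw Γ)] [∀ (M : ι) (a : Tw Γ), (shiftFunctor (X M) a).Additive]
    [∀ (M : ι) (a : Tw Γ), (shiftFunctor (X M) a).Linear ℂ]
    (spec : ∀ L M : ι, L ≤ M → (X L ⥤ X M)) [∀ L M h, (spec L M h).CommShift (Tw Γ)]
    (O : ∀ M, Equivariant (X M) (Tw Γ))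
    (u : ∀ (L M : ι) (h : L ≤ M), S.W M ⟶ (S.ind L M h).obj (S.W L))
    (v : ∀ (L M : ι) (h : L ≤ M), (O M).obj ⟶ (spec L M h).obj (O L).obj)
    (hW : WhitData S.ind spec S.W (fun M => (O M).obj) u v)
    (hu : ∀ L M h, IsEqVec (S.d L) (S.d M) (Cls.un (u L M h)))
    (hv : ∀ L M h, IsEq (A := Tw Γ) (spec L M h) (O M) (O L) (v L M h))
    (F : ∀ M, S.R M ⥤ X M) [∀ M, (F M).Additive] [∀ M, (F M).Linear ℂ]
    (hF : Family S.ind spec S.W (fun M => (O M).obj) F)
    (e : ∀ M, (F M).obj (S.W M) ≅ (O M).obj)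
    (hχ : ∀ (M : ι) (a : Tw Γ) (z z' : S.W M ⟶ S.W M),
      Smooth.IsTwist (S.d M) a (Cls.un z) (Cls.un z') →
      transp (F M) (e M) z' = twistBy (O M) a (transp (F M) (e M) z)) :
    ∃ F' : ∀ M, S.RK M ⥤ Equivariant (X M) (Tw Γ),
      Family S.indK (fun L M h => mapEq (spec L M h)) S.WK O F' ∧
      (∀ M, Nonempty (F' M ⋙ Equivariant.forget (X M) (Tw Γ) ≅ S.indG M ⋙ F M)) ∧
      ∀ (M : ι) (g : (S.G M).T),
        AgreeUpTo (fun a : Tw Γ => a.char ((S.d M).f g)) (S.conjK M g ⋙ F' M) (F' M) := by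
  have hW' : WhittakerData S.ind spec (fun M => (S.WE M).obj) (fun M => (O M).obj) u v :=
    ⟨hW.commutative, hW.separator, hW.generated, hW.universal, hW.spec_free⟩
  have hF' : Levi.Solves S.ind spec (fun M => (S.WE M).obj) (fun M => (O M).obj) F :=
    ⟨hF.full, hF.faithful, hF.whittaker, hF.induction⟩
  obtain ⟨c, -, h2⟩ := (descend_iff (A := Tw Γ) (W := S.WE) (O := O) (u := u) (v := v) hW'
    (fun L M h => S.isEquivariant_vec L M h (u L M h) (hu L M h)) hv F hF' e).1
    (fun M a z => hχ M a z _ (S.isTwist_conjTwist M a z))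
  refine ⟨fun M => S.cliff M ⋙ mapEq (F M), S.solves_kernel (fun M => mapEq (F M)) h2,
    fun M => ⟨?_⟩, fun M g => ?_⟩
  · exact Functor.isoWhiskerRight (S.cliffForget M) (F M)
  · obtain ⟨α⟩ := S.cliffConj M g
    obtain ⟨β⟩ := charTwist_mapEq (A := Tw Γ) (F M) (evTw ((S.d M).f g))
    exact agreeUpTo_of_charTwist (evTw ((S.d M).f g)) _ _
      (Functor.isoWhiskerRight α (mapEq (F M)) ≪≫ Functor.isoWhiskerLeft (S.cliff M) β)

end Smooth

end TwistDescent
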