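import Pool.Agent.Lib.MP_7428c0_nt.G.Cliff

/-!
# Clifford theory and induction

Induction along `P`, after induction from the kernel, is induction along the restriction of `P`
to the kernels, followed by induction from the kernel.
-/

set_option autoImplicit false

namespace TwistDescent

namespace Smooth

open CategoryTheory SRep

section cover

variable {G : TG}

/-- A compact set is covered by finitely many cosets of an open subgroup. -/
theorem exists_finite_cover (K : OpenSubgroup G.T) {C : Set G.T} (hC : IsCompact C) :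
    ∃ t : Finset G.T, ∀ c ∈ C, ∃ g ∈ t, ∃ x ∈ K, g * x = c := by
  obtain ⟨t, ht⟩ := hC.elim_finite_subcover
    (fun g : G.T => (fun x : G.T => g⁻¹ * x) ⁻¹' (K : Set G.T))
    (fun g => K.isOpen.preimage (continuous_const.mul continuous_id))
    (fun c _ => Set.mem_iUnion.2 ⟨c, by
      show c⁻¹ * c ∈ K
      rw [inv_mul_cancel]
      exact K.one_mem'⟩)
  refine ⟨t, fun c hc => ?_⟩
  have h := ht hc
  simp only [Set.mem_iUnion] at h
  obtain ⟨g, hg, h1⟩ := h
  exact ⟨g, hg, g⁻¹ * c, h1, mul_inv_cancel_left g c⟩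

variable {Γ : CG}

/-- The kernel of `d` is closed. -/
theorem isClosedEmbedding_ker (d : Deg G Γ) :
    Topology.IsClosedEmbedding (Ker.val (d := d)) := by
  have h : IsClosed ((d.ker : Subgroup G.T) : Set G.T) := by
    have h1 : IsClosed (d.f ⁻¹' ({1} : Set Γ.T)) := isClosed_singleton.preimage d.cont
    exact h1
  exact h.isClosedEmbedding_subtypeVal

theorem continuous_kerVal (d : Deg G Γ) : Continuous (Ker.val (d := d)) :=
  (isClosedEmbedding_ker d).continuous

end cover

section restr

variable {L M : TG} {Γ : CG} {dL : Deg L Γ} {dM : Deg M Γ}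

/-- The value of an iterated induction (first to the kernel of `dM`, then to `M`). -/
def val2 {P : ParaOver dL dM} {V : SRep (Ker dL)}
    (F : (indObj (kerPara dM).toPara (indObj (restr P) V)).V) (m : M.T) (n : (Ker dM).T) : V.V :=
  val (val F m) n

/-- The value of an iterated induction (first to `L`, then to `M`). -/
def val2' {P : ParaOver dL dM} {V : SRep (Ker dL)}
    (f : (indObj P.toPara (indObj (kerPara dL).toPara V)).V) (m : M.T) (l : L.T) : V.V :=
  val (val f m) l

theorem val2_ext {P : ParaOver dL dM} {V : SRep (Ker dL)}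
    {F F' : (indObj (kerPara dM).toPara (indObj (restr P) V)).V}
    (h : ∀ m n, val2 F m n = val2 F' m n) : F = F' := ind_ext fun m => ind_ext fun n => h m n

theorem val2'_ext {P : ParaOver dL dM} {V : SRep (Ker dL)}
    {f f' : (indObj P.toPara (indObj (kerPara dL).toPara V)).V}
    (h : ∀ m l, val2' f m l = val2' f' m l) : f = f' := ind_ext fun m => ind_ext fun l => h m l

theorem val2_ker {P : ParaOver dL dM} {V : SRep (Ker dL)}
    (F : (indObj (kerPara dM).toPara (indObj (restr P) V)).V) (m : M.T) (n n' : (Ker dM).T) :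
    val2 F (Ker.val n' * m) n = val2 F m (n * n') := by
  unfold val2
  rw [val_ker, val_act]

theorem val2_left {P : ParaOver dL dM} {V : SRep (Ker dL)}
    (F : (indObj (kerPara dM).toPara (indObj (restr P) V)).V) (m : M.T) (n : (Ker dM).T)
    (p : P.K) :
    val2 F m (P.incK p * n) = P.δ (P.val p) • V.act (P.projK p) (val2 F m n) :=
  val_left (P := restr P) (V := V) (val F m) p n

/-- The element of `P.K` given by an element of `P`. -/
def ParaOver.mkK (P : ParaOver dL dM) (p : P.P) (hp : dM.f (P.inc p) = 1) : P.K := ⟨p, hp⟩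

/-- The value at `1` transforms by `δ p` under `p` in the kernel. -/
theorem val2_inc {P : ParaOver dL dM} {V : SRep (Ker dL)}
    (F : (indObj (kerPara dM).toPara (indObj (restr P) V)).V) (m : M.T)
    (p : P.P) (hp : dM.f (P.inc p) = 1) :
    val2 F (P.inc p * m) 1 =
      P.δ p • V.act (Ker.mk (P.proj p) ((P.compat p).trans hp)) (val2 F m 1) := by
  have h := val2_ker F m 1 (Ker.mk (P.inc p) hp)
  rw [one_mul] at h
  have h1 := val2_left F m 1 (P.mkK p hp)
  rw [mul_one] at h1
  exact h.trans h1

/-- Independence of the choice of `p`. -/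
theorem val2_indep {P : ParaOver dL dM} {V : SRep (Ker dL)}
    (F : (indObj (kerPara dM).toPara (indObj (restr P) V)).V) (m : M.T) {p q : P.P}
    (h : P.proj p = P.proj q) :
    (P.δ p)⁻¹ • val2 F (P.inc p * m) 1 = (P.δ q)⁻¹ • val2 F (P.inc q * m) 1 := by
  have h0 : P.proj (p * q⁻¹) = 1 := by rw [P.proj_mul, P.proj_inv, h, mul_inv_cancel]
  have h1 : dM.f (P.inc (p * q⁻¹)) = 1 := by rw [← P.compat, h0, dL.one]
  have h2 := val2_inc F (P.inc q * m) (p * q⁻¹) h1
  have h3 : Ker.mk (d := dL) (P.proj (p * q⁻¹)) ((P.compat _).trans h1) = 1 := Ker.ext h0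
  rw [h3, V.one, ← mul_assoc, ← P.inc_mul, inv_mul_cancel_right] at h2
  rw [h2]
  show (P.δ p)⁻¹ • P.δ (p * q⁻¹) • val2 F (P.inc q * m) 1 = _
  rw [smul_smul, P.δ_mul, P.δ_inv, inv_mul_cancel_left₀ (P.δ_ne p)]

end restr

end Smooth

end TwistDescent
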