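import Pool.Agent.Lib.MP_7428c0_nt.G.Tws

/-!
# Smooth characters separate points
-/

set_option autoImplicit false

namespace TwistDescent

namespace Smooth

/-- The exponential `x ↦ exp (2 π i x)` on the rational numbers. -/
noncomputable def expRat : ℚ →+ Additive ℂˣ where
  toFun x := Additive.ofMul (Units.mk0 (Complex.exp ((x : ℂ) * (2 * Real.pi * Complex.I)))
    (Complex.exp_ne_zero _))
  map_zero' := by
    apply Additive.toMul.injective
    apply Units.ext
    simp
  map_add' x y := by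
    apply Additive.toMul.injective
    apply Units.ext
    show Complex.exp (((x + y : ℚ) : ℂ) * (2 * Real.pi * Complex.I)) =
      Complex.exp ((x : ℂ) * (2 * Real.pi * Complex.I)) *
        Complex.exp ((y : ℂ) * (2 * Real.pi * Complex.I))
    rw [← Complex.exp_add, Rat.cast_add, add_mul]

theorem expRat_eq_zero {x : ℚ} (h : expRat x = 0) : ∃ n : ℤ, x = n := by
  have h1 := congrArg (fun y : Additive ℂˣ => ((Additive.toMul y : ℂˣ) : ℂ)) h
  have h2 : Complex.exp ((x : ℂ) * (2 * Real.pi * Complex.I)) = 1 := h1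
  obtain ⟨n, hn⟩ := Complex.exp_eq_one_iff.1 h2
  refine ⟨n, ?_⟩
  have h3 : (2 * Real.pi * Complex.I : ℂ) ≠ 0 := by
    simp [Real.pi_ne_zero, Complex.I_ne_zero]
  have h4 := mul_right_cancel₀ h3 hn
  exact_mod_cast h4

theorem expRat_int (n : ℤ) : expRat (n : ℚ) = 0 := by
  apply Additive.toMul.injective
  apply Units.ext
  show Complex.exp ((((n : ℤ) : ℚ) : ℂ) * (2 * Real.pi * Complex.I)) = 1
  rw [Complex.exp_eq_one_iff]
  exact ⟨n, by push_cast; ring⟩

/-- The exponential on `ℚ / ℤ`. -/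
noncomputable def expCircle : AddCircle (1 : ℚ) →+ Additive ℂˣ :=
  QuotientAddGroup.lift (AddSubgroup.zmultiples (1 : ℚ)) expRat (by
    intro x hx
    obtain ⟨n, hn⟩ := AddSubgroup.mem_zmultiples_iff.1 hx
    have h : x = (n : ℚ) := by
      rw [← hn, zsmul_eq_mul, mul_one]
    rw [h]
    exact expRat_int n)

theorem expCircle_injective (x : AddCircle (1 : ℚ)) (h : expCircle x = 0) : x = 0 := by
  induction x using QuotientAddGroup.induction_on with
  | H y =>
    have h1 : expRat y = 0 := h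
    obtain ⟨n, hn⟩ := expRat_eq_zero h1
    rw [hn]
    apply (QuotientAddGroup.eq_zero_iff _).2
    exact AddSubgroup.mem_zmultiples_iff.2 ⟨n, by rw [zsmul_eq_mul, mul_one]⟩

/-- A character of a commutative group which is not trivial at a given element. -/
theorem exists_char_ne {A : Type} [CommGroup A] {a : A} (ha : a ≠ 1) :
    ∃ χ : A →* ℂˣ, χ a ≠ 1 := by
  have ha' : Additive.ofMul a ≠ 0 := ha
  obtain ⟨c, hc⟩ := CharacterModule.exists_character_apply_ne_zero_of_ne_zero ha'
  refine ⟨MonoidHom.mk' (fun x => Additive.toMul (expCircle (c (Additive.ofMul x))))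
    (fun x y => ?_), fun h => hc (expCircle_injective _ h)⟩
  rw [ofMul_mul, map_add, map_add, toMul_add]

/-- The smooth complex characters of a Hausdorff nonarchimedean commutative group separate
points. -/
theorem exists_smooth_char {Γ : CG} (γ : Γ.T) (hγ : γ ≠ 1) : ∃ a : Tw Γ, a.char γ ≠ 1 := by
  have h1 : ({γ}ᶜ : Set Γ.T) ∈ nhds (1 : Γ.T) := isOpen_compl_singleton.mem_nhds (Ne.symm hγ)
  obtain ⟨K, hK⟩ := NonarchimedeanGroup.is_nonarchimedean _ h1
  have h2 : (QuotientGroup.mk γ : Γ.T ⧸ (K : Subgroup Γ.T)) ≠ 1 := by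
    intro h
    rw [QuotientGroup.eq_one_iff] at h
    exact hK h rfl
  obtain ⟨χ, hχ⟩ := exists_char_ne h2
  refine ⟨⟨fun x => ((χ (QuotientGroup.mk x) : ℂˣ) : ℂ), fun x y => ?_, fun x => Units.ne_zero _,
    K, fun x hx => ?_⟩, fun h => hχ (Units.ext h)⟩
  · rw [QuotientGroup.mk_mul, map_mul, Units.val_mul]
  · have h3 : (QuotientGroup.mk x : Γ.T ⧸ (K : Subgroup Γ.T)) = 1 := (QuotientGroup.eq_one_iff x).2 hx
    rw [h3, map_one, Units.val_one]

end Smooth

end TwistDescent
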