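import Pool.Agent.Lib.MP_7428c0_nt.G.System
import Pool.Agent.Lib.MP_7428c0_nt.G.Sep
import Pool.Agent.Lib.MP_7428c0_nt.Twist

/-!
# Systems of Levi subgroups, and descent to the kernels
-/

set_option autoImplicit false

namespace TwistDescent

namespace Smooth

open CategoryTheory SRep Levi

universe v u v' u' w

namespace LeviSystem

variable {ι : Type} [LE ι] {Γ : CG} (S : LeviSystem ι Γ)

/-- The class `Q M`, as a property of objects of the category with twists. -/
def QD (M : ι) : ObjectProperty (DRep (S.d M)) := S.Q M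

instance (M : ι) : (S.QD M).IsStableUnderShift (Tw Γ) where
  isStableUnderShiftBy a := ⟨fun _ h => ClosedTw.tw (S.closed M) a h⟩

/-- The category of representations in `Q M`, with the twists. -/
abbrev RD (M : ι) : Type 1 := (S.QD M).FullSubcategory

noncomputable instance (M : ι) : HasShift (S.R M) (Tw Γ) :=
  inferInstanceAs (HasShift (S.RD M) (Tw Γ))

instance (M : ι) (a : Tw Γ) : (shiftFunctor (S.RD M) a).Additive where
  map_add {X Y} f g := by
    have h1 : ((S.QD M).ι ⋙ shiftFunctor (DRep (S.d M)) a).Additive := inferInstance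
    have h2 : (shiftFunctor (S.RD M) a ⋙ (S.QD M).ι).Additive :=
      Functor.additive_of_iso ((S.QD M).ι.commShiftIso a).symm
    apply (S.QD M).ι.map_injective
    exact h2.map_add

instance (M : ι) (a : Tw Γ) : (shiftFunctor (S.RD M) a).Linear ℂ := by
  have h : (shiftFunctor (DRep (S.d M)) a).Linear ℂ := inferInstance
  exact linear_shift_sub (D := DRep (S.d M)) (A := Tw Γ) (k := ℂ) (S.QD M) a

instance (M : ι) (a : Tw Γ) : (shiftFunctor (S.R M) a).Additive :=
  inferInstanceAs (shiftFunctor (S.RD M) a).Additive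

instance (M : ι) (a : Tw Γ) : (shiftFunctor (S.R M) a).Linear ℂ :=
  inferInstanceAs ((shiftFunctor (S.RD M) a).Linear ℂ)

noncomputable instance (L M : ι) (h : L ≤ M) : (S.ind L M h).CommShift (Tw Γ) :=
  inferInstanceAs (((S.QD M).lift ((S.QD L).ι ⋙ indD (S.P L M h).toParaOver)
    (fun V => S.ind_mem L M h V.obj V.property)).CommShift (Tw Γ))

/-- The compact Whittaker space of `G M`, as an equivariant object. -/
noncomputable def WD (M : ι) : Equivariant (S.RD M) (Tw Γ) :=
  liftEqObj (S.QD M) (whitEq (S.w M).toParaOver) (S.whit_mem M)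

/-- The compact Whittaker space of `G M`, as an equivariant object. -/
noncomputable def WE (M : ι) : Equivariant (S.R M) (Tw Γ) := S.WD M

theorem WE_obj (M : ι) : (S.WE M).obj = S.W M := rfl

/-- The class `QK M`, as a property of objects. -/
def QKD (M : ι) : ObjectProperty (SRep (Ker (S.d M))) := S.QK M

/-- Clifford theory on the class `QK M`, with values in all smooth representations. -/
noncomputable def cliffT (M : ι) :
    (S.QKD M).FullSubcategory ⥤ Equivariant (DRep (S.d M)) (Tw Γ) :=
  (S.QKD M).ι ⋙ Smooth.cliff (S.d M)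

theorem cliffT_mem (M : ι) (V : (S.QKD M).FullSubcategory) :
    S.QD M ((S.cliffT M).obj V).obj := V.property

/-- Clifford theory: a representation of the kernel of `d M` in `QK M` gives an equivariant
object of `R M`, its induction to `G M`. -/
noncomputable def cliffD (M : ι) : (S.QKD M).FullSubcategory ⥤ Equivariant (S.RD M) (Tw Γ) :=
  liftEq (S.QD M) (S.cliffT M) (S.cliffT_mem M)

/-- Clifford theory on classes. -/
noncomputable def cliff (M : ι) : S.RK M ⥤ Equivariant (S.R M) (Tw Γ) := S.cliffD M

/-- Conjugation, on full subcategories. -/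
def conjD (M : ι) (g : (S.G M).T) :
    (S.QKD M).FullSubcategory ⥤ (S.QKD M).FullSubcategory :=
  (S.QKD M).lift ((S.QKD M).ι ⋙ conjRep (S.d M) g) (fun V => S.conjK_mem M g V.obj V.property)

/-- Parabolic induction for the kernels, on full subcategories. -/
def indKD (L M : ι) (h : L ≤ M) :
    (S.QKD L).FullSubcategory ⥤ (S.QKD M).FullSubcategory :=
  (S.QKD M).lift ((S.QKD L).ι ⋙ indF (restr (S.P L M h).toParaOver))
    (fun V => S.indK_mem L M h V.obj V.property)

/-- Parabolic induction, on full subcategories. -/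
def indRD (L M : ι) (h : L ≤ M) : S.RD L ⥤ S.RD M :=
  (S.QD M).lift ((S.QD L).ι ⋙ indD (S.P L M h).toParaOver)
    (fun V => S.ind_mem L M h V.obj V.property)

noncomputable instance (L M : ι) (h : L ≤ M) : (S.indRD L M h).CommShift (Tw Γ) :=
  inferInstanceAs (((S.QD M).lift ((S.QD L).ι ⋙ indD (S.P L M h).toParaOver)
    (fun V => S.ind_mem L M h V.obj V.property)).CommShift (Tw Γ))

/-- Clifford theory commutes with parabolic induction. -/
noncomputable def cliffIndD (L M : ι) (h : L ≤ M) :
    S.indKD L M h ⋙ S.cliffD M ≅ S.cliffD L ⋙ mapEq (S.indRD L M h) :=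
  liftSquare (S.QD L) (S.QD M) (indD (S.P L M h).toParaOver)
    (fun V => S.ind_mem L M h V.obj V.property) (S.cliffT L) (S.cliffT_mem L)
    (S.cliffT M) (S.cliffT_mem M) (S.indKD L M h)
    (Functor.isoWhiskerRight ((S.QKD M).liftCompιIso
      ((S.QKD L).ι ⋙ indF (restr (S.P L M h).toParaOver))
      (fun V => S.indK_mem L M h V.obj V.property)) (Smooth.cliff (S.d M)) ≪≫
      Functor.isoWhiskerLeft (S.QKD L).ι (interchange (S.P L M h).topological))

/-- Clifford theory commutes with parabolic induction. -/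
noncomputable def cliffInd (L M : ι) (h : L ≤ M) :
    S.indK L M h ⋙ S.cliff M ≅ S.cliff L ⋙ mapEq (S.ind L M h) := S.cliffIndD L M h

/-- The compact Whittaker space of the kernel. -/
def WKD (M : ι) : (S.QKD M).FullSubcategory :=
  ⟨indObj (restr (S.w M).toParaOver) (trivRep (Ker (Deg.triv pt Γ))), S.whitK_mem M⟩

/-- Clifford theory takes the Whittaker space to the Whittaker space. -/
noncomputable def cliffWhitD (M : ι) : (S.cliffD M).obj (S.WKD M) ≅ S.WD M :=
  have := mapEq_full (A := Tw Γ) (S.QD M).ι
  have := mapEq_faithful (A := Tw Γ) (S.QD M).ι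
  (mapEq (S.QD M).ι).preimageIso
    ((liftEqIso (S.QD M) (S.cliffT M) (S.cliffT_mem M)).app
      (S.WKD M) ≪≫ whitIso (S.w M).topological ≪≫
      (liftEqObjIso (S.QD M) (whitEq (S.w M).toParaOver) (S.whit_mem M)).symm)

/-- Clifford theory takes the Whittaker space to the Whittaker space. -/
noncomputable def cliffWhit (M : ι) : (S.cliff M).obj (S.WK M) ≅ S.WE M := S.cliffWhitD M

theorem cliffConjD (M : ι) (g : (S.G M).T) : Nonempty (S.conjD M g ⋙ S.cliffD M ≅
    S.cliffD M ⋙ charTwist (C := S.RD M) (A := Tw Γ) (evTw ((S.d M).f g))) := by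
  have α : S.conjD M g ⋙ S.cliffT M ≅
      S.cliffT M ⋙ charTwist (C := DRep (S.d M)) (A := Tw Γ) (evTw ((S.d M).f g)) :=
    Functor.isoWhiskerRight ((S.QKD M).liftCompιIso ((S.QKD M).ι ⋙ conjRep (S.d M) g)
      (fun V => S.conjK_mem M g V.obj V.property)) (Smooth.cliff (S.d M)) ≪≫
      Functor.isoWhiskerLeft (S.QKD M).ι (Smooth.cliffConj (S.d M) g)
  exact liftEq_charTwist' (D := DRep (S.d M)) (A := Tw Γ) (E := (S.QKD M).FullSubcategory)
    (k := ℂ) (S.QD M) (S.cliffT M) (S.cliffT_mem M) (S.conjD M g) (evTw ((S.d M).f g)) α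

theorem cliff_full (M : ι) : (S.cliff M).Full := by
  have := Smooth.cliff_full (d := S.d M) exists_smooth_char
  have : (S.cliffT M).Full := by
    unfold cliffT
    infer_instance
  exact liftEq_full (S.QD M) (S.cliffT M) (S.cliffT_mem M)

theorem cliff_faithful (M : ι) : (S.cliff M).Faithful := by
  have := Smooth.cliff_faithful (d := S.d M)
  have : (S.cliffT M).Faithful := by
    unfold cliffT
    infer_instance
  exact liftEq_faithful (S.QD M) (S.cliffT M) (S.cliffT_mem M)

end LeviSystem

end Smooth

end TwistDescent
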