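import Pool.Agent.Lib.MP_7428c0_nt.G.Mem
import Pool.Agent.Lib.MP_7428c0_nt.G.Core

/-!
# Systems of Levi subgroups
-/

set_option autoImplicit false

namespace TwistDescent

namespace Smooth

open CategoryTheory

/-- The data of the question on the side of the groups: locally profinite groups `G M` (the
standard Levi subgroups `M`) with continuous homomorphisms `d M` to a commutative topological
group `Γ`, data `P L M` for parabolic induction from `G L` to `G M` for `L ≤ M`, Whittaker data
`w M` (induction from the trivial group), and classes `Q M` of smooth representations of `G M`,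
which are closed under isomorphisms, twists by the smooth characters of `Γ` and parabolic
induction, and contain the compact Whittaker spaces. -/
structure LeviSystem (ι : Type) [LE ι] (Γ : CG) where
  /-- the groups -/
  G : ι → TG
  [nonarch : ∀ M, NonarchimedeanGroup (G M).T]
  [locCompact : ∀ M, LocallyCompactSpace (G M).T]
  /-- the homomorphisms to `Γ` -/
  d : ∀ M, Deg (G M) Γ
  /-- the data for parabolic induction -/
  P : ∀ L M : ι, L ≤ M → ParaTop (d L) (d M)
  /-- the Whittaker data -/
  w : ∀ M, ParaTop (Deg.triv pt Γ) (d M)
  /-- the classes of representations -/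
  Q : ∀ M, SRep (G M) → Prop
  closed : ∀ (M : ι) (V V' : SRep (G M)) (a : Tw Γ), IsTwistOf (d M) a V V' → Q M V → Q M V'
  ind_mem : ∀ (L M : ι) (h : L ≤ M) (V : SRep (G L)), Q L V → Q M (indObj (P L M h).toPara V)
  whit_mem : ∀ M, Q M (whit (w M).toPara)

attribute [instance] LeviSystem.nonarch LeviSystem.locCompact

namespace LeviSystem

variable {ι : Type} [LE ι] {Γ : CG} (S : LeviSystem ι Γ)

/-- The category of representations of `G M` in the class `Q M`. -/
abbrev R (M : ι) : Type 1 := Cls (S.Q M)

/-- Parabolic induction on the classes `Q`. -/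
def ind (L M : ι) (h : L ≤ M) : S.R L ⥤ S.R M :=
  Smooth.ind (S.P L M h).toPara (S.Q L) (S.Q M) (S.ind_mem L M h)

/-- The compact Whittaker space of `G M`. -/
def W (M : ι) : S.R M := Cls.mk _ (S.whit_mem M)

/-- The class of the smooth representations `V` of the kernel of `d M` such that the induction
with compact support of `V` to `G M` belongs to `Q M`. -/
def QK (M : ι) (V : SRep (Ker (S.d M))) : Prop := S.Q M (indObj (kerPara (S.d M)).toPara V)

/-- The category of representations of the kernel of `d M` in the class `QK M`. -/
abbrev RK (M : ι) : Type 1 := Cls (S.QK M)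

/-- Induction with compact support from the kernel of `d M` to `G M`. -/
def indG (M : ι) : S.RK M ⥤ S.R M :=
  Smooth.ind (kerPara (S.d M)).toPara (S.QK M) (S.Q M) (fun _ h => h)

theorem conjK_mem (M : ι) (g : (S.G M).T) (V : SRep (Ker (S.d M))) (hV : S.QK M V) :
    S.QK M (conjObj g V) := ClosedTw.conj (S.closed M) g V hV

/-- The conjugate by `g` of a representation `V` of the kernel of `d M`: the element `n` acts by
the action of `g n g⁻¹` on `V`. -/
def conjK (M : ι) (g : (S.G M).T) : S.RK M ⥤ S.RK M := conj g (S.QK M) (S.conjK_mem M g)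

theorem indK_mem (L M : ι) (h : L ≤ M) (V : SRep (Ker (S.d L))) (hV : S.QK L V) :
    S.QK M (indObj (restr (S.P L M h).toParaOver) V) :=
  ClosedTw.ind (S.closed M) (S.P L M h) V (S.ind_mem L M h _ hV)

/-- Parabolic induction for the kernels of the homomorphisms `d`. -/
def indK (L M : ι) (h : L ≤ M) : S.RK L ⥤ S.RK M :=
  Smooth.ind (restr (S.P L M h).toParaOver) (S.QK L) (S.QK M) (S.indK_mem L M h)

theorem whitK_mem (M : ι) :
    S.QK M (indObj (restr (S.w M).toParaOver) (trivRep (Ker (Deg.triv pt Γ)))) :=
  ClosedTw.whit (S.closed M) (S.w M) (S.whit_mem M)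

/-- The compact Whittaker space of the kernel of `d M`. -/
def WK (M : ι) : S.RK M := Cls.mk _ (S.whitK_mem M)

end LeviSystem

end Smooth

end TwistDescent
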