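import Pool.Agent.Lib.MP_7428c0_nt.G.Api
import Pool.Agent.Lib.MP_7428c0_nt.Equiv

/-!
# Twists of smooth representations by characters

Let `d : G → Γ` be a continuous homomorphism. The smooth characters of `Γ` act on the smooth
representations of `G` by twists. `DRep d` is the category `SRep G`, with this action.
-/

set_option autoImplicit false

namespace TwistDescent

namespace Smooth

open CategoryTheory SRep

variable {G : TG} {Γ : CG}

theorem Tw.char_zero (γ : Γ.T) : (0 : Tw Γ).char γ = 1 := rfl

theorem Tw.char_add (a b : Tw Γ) (γ : Γ.T) : (a + b).char γ = a.char γ * b.char γ := rfl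

theorem Tw.char_one (a : Tw Γ) : a.char 1 = 1 := by
  have h := a.mul 1 1
  rw [mul_one] at h
  exact mul_left_cancel₀ (a.ne 1) (h.symm.trans (mul_one _).symm)

theorem Deg.one (d : Deg G Γ) : d.f 1 = 1 := by
  have h := d.mul 1 1
  rw [mul_one] at h
  exact left_eq_mul.1 h

/-- The value at `g` of the character of `G` attached to a smooth character of `Γ`. -/
def chr (d : Deg G Γ) (a : Tw Γ) (g : G.T) : ℂ := a.char (d.f g)

theorem chr_ne (d : Deg G Γ) (a : Tw Γ) (g : G.T) : chr d a g ≠ 0 := a.ne _

theorem chr_mul (d : Deg G Γ) (a : Tw Γ) (g h : G.T) :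
    chr d a (g * h) = chr d a g * chr d a h := by
  show a.char (d.f (g * h)) = a.char (d.f g) * a.char (d.f h)
  rw [d.mul, a.mul]

theorem chr_ker (d : Deg G Γ) (a : Tw Γ) {g : G.T} (hg : d.f g = 1) : chr d a g = 1 := by
  show a.char (d.f g) = 1
  rw [hg, a.char_one]

@[simp] theorem chr_one (d : Deg G Γ) (a : Tw Γ) : chr d a 1 = 1 := chr_ker d a d.one

theorem chr_zero (d : Deg G Γ) (g : G.T) : chr d (0 : Tw Γ) g = 1 := rfl

theorem chr_add (d : Deg G Γ) (a b : Tw Γ) (g : G.T) :
    chr d (a + b) g = chr d a g * chr d b g := rfl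

/-- The character of `G` attached to a smooth character of `Γ` is smooth. -/
theorem chr_smooth (d : Deg G Γ) (a : Tw Γ) :
    ∃ K : OpenSubgroup G.T, ∀ g ∈ K, chr d a g = 1 := by
  obtain ⟨K, hK⟩ := a.smooth
  exact ⟨K.comap (MonoidHom.mk' d.f d.mul) d.cont, fun g hg => hK (d.f g) hg⟩

/-- The twist of a smooth representation by a character. -/
def twObj (d : Deg G Γ) (a : Tw Γ) (V : SRep G) : SRep G where
  V := V.V
  act g v := chr d a g • V.act g v
  lin g r v w := by
    show chr d a g • V.act g (r • v + w) = r • chr d a g • V.act g v + chr d a g • V.act g w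
    rw [V.act_add, V.act_smul, smul_add, smul_comm]
  one v := by
    rw [chr_one, V.one, one_smul]
  mul g h v := by
    rw [chr_mul, V.mul, V.act_smul, smul_smul]
  smooth := by
    intro v
    obtain ⟨K, hK⟩ := V.smooth v
    obtain ⟨K', hK'⟩ := chr_smooth d a
    refine ⟨K ⊓ K', fun g hg => ?_⟩
    rw [hK' g hg.2, hK g hg.1, one_smul]

theorem twObj_act (d : Deg G Γ) (a : Tw Γ) (V : SRep G) (g : G.T) (v : V.V) :
    (twObj d a V).act g v = chr d a g • V.act g v := rfl

/-- The twist functor. -/
def tw (d : Deg G Γ) (a : Tw Γ) : SRep G ⥤ SRep G where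
  obj := twObj d a
  map {X Y} f := ofLin (X := twObj d a X) (Y := twObj d a Y) (toLin (X := X) (Y := Y) f)
    (fun g v => by
      show toLin (X := X) (Y := Y) f (chr d a g • X.act g v) =
        chr d a g • Y.act g (toLin (X := X) (Y := Y) f v)
      rw [map_smul, toLin_comm])

/-- The category of smooth representations of `G`, with the twists by the smooth characters
of `Γ`. -/
def DRep {G : TG} {Γ : CG} (_d : Deg G Γ) : Type 1 := SRep G

instance (d : Deg G Γ) : Category (DRep d) := inferInstanceAs (Category (SRep G))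

instance (d : Deg G Γ) : Preadditive (DRep d) := inferInstanceAs (Preadditive (SRep G))

instance (d : Deg G Γ) : Linear ℂ (DRep d) := inferInstanceAs (Linear ℂ (SRep G))

theorem toLin_eqToHom (d : Deg G Γ) {a b : Tw Γ} (h : a = b) (V : SRep G)
    (h' : (tw d a).obj V = (tw d b).obj V) (v : V.V) :
    toLin (eqToHom h') v = v := by
  subst h
  rfl

@[simp] theorem toLin_tw (d : Deg G Γ) (a : Tw Γ) {X Y : SRep G} (f : X ⟶ Y) (v : X.V) :
    toLin ((tw d a).map f) v = toLin f v := rfl

/-- The twist by the trivial character. -/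
def twZero (d : Deg G Γ) : tw d (0 : Tw Γ) ≅ 𝟭 (SRep G) :=
  NatIso.ofComponents (fun V => SRep.mkIso (X := twObj d 0 V) (Y := V)
    (LinearEquiv.refl ℂ V.V) (fun g v => by
      show chr d (0 : Tw Γ) g • V.act g v = V.act g v
      rw [chr_zero, one_smul])) (fun f => by
      apply SRep.hom_ext
      intro v
      rfl)

@[simp] theorem twZero_hom_app (d : Deg G Γ) (V : SRep G) (v : V.V) :
    toLin ((twZero d).hom.app V) v = v := rfl

@[simp] theorem twZero_inv_app (d : Deg G Γ) (V : SRep G) (v : V.V) :
    toLin ((twZero d).inv.app V) v = v := rfl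

/-- The twist by a product of characters. -/
def twAdd (d : Deg G Γ) (a b : Tw Γ) : tw d (a + b) ≅ tw d a ⋙ tw d b :=
  NatIso.ofComponents (fun V => SRep.mkIso (X := twObj d (a + b) V)
    (Y := twObj d b (twObj d a V)) (LinearEquiv.refl ℂ V.V) (fun g v => by
      show chr d (a + b) g • V.act g v = chr d b g • chr d a g • V.act g v
      rw [chr_add, smul_smul, mul_comm])) (fun f => by
      apply SRep.hom_ext
      intro v
      rfl)

@[simp] theorem twAdd_hom_app (d : Deg G Γ) (a b : Tw Γ) (V : SRep G) (v : V.V) :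
    toLin ((twAdd d a b).hom.app V) v = v := rfl

@[simp] theorem twAdd_inv_app (d : Deg G Γ) (a b : Tw Γ) (V : SRep G) (v : V.V) :
    toLin ((twAdd d a b).inv.app V) v = v := rfl

/-- The action of the smooth characters of `Γ` on smooth representations by twists. -/
def twCore (d : Deg G Γ) : ShiftMkCore (SRep G) (Tw Γ) where
  F a := tw d a
  zero := twZero d
  add a b := twAdd d a b
  assoc_hom_app a b c V := by
    apply SRep.hom_ext
    intro v
    exact (toLin_eqToHom d (add_assoc a b c) V _ v).symm
  zero_add_hom_app a V := by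
    apply SRep.hom_ext
    intro v
    exact (toLin_eqToHom d (zero_add a) V _ v).symm
  add_zero_hom_app a V := by
    apply SRep.hom_ext
    intro v
    exact (toLin_eqToHom d (add_zero a) V _ v).symm

noncomputable instance (d : Deg G Γ) : HasShift (DRep d) (Tw Γ) :=
  hasShiftMk (SRep G) (Tw Γ) (twCore d)

theorem shiftFunctor_eq (d : Deg G Γ) (a : Tw Γ) : shiftFunctor (DRep d) a = tw d a := rfl

instance (d : Deg G Γ) (a : Tw Γ) : (shiftFunctor (DRep d) a).Additive where
  map_add := rfl

instance (d : Deg G Γ) (a : Tw Γ) : (shiftFunctor (DRep d) a).Linear ℂ where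
  map_smul := by
    intro X Y f r
    rfl

end Smooth

end TwistDescent
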