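import Pool.Agent.Lib.MP_7428c0_nt.G.Interch

/-!
# Whittaker spaces and Clifford theory

The functor `cliff` takes the compact Whittaker space of the kernel of `d` to the compact
Whittaker space of the group, equivariantly.
-/

set_option autoImplicit false

namespace TwistDescent

namespace Smooth

open CategoryTheory SRep

section

variable {M : TG} {Γ : CG} {d : Deg M Γ}

/-- The compact Whittaker space is equivariant, by the multiplication of functions with the
inverses of characters. -/
noncomputable def whitEq (w : ParaOver (Deg.triv pt Γ) d) : Equivariant (DRep d) (Tw Γ) :=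
  mapEqObj (indD w) (trivEqObj (Deg.triv pt Γ) (fun _ => rfl) (trivRep pt))

/-- Evaluation at the point. -/
def pointEquiv (Γ : CG) :
    (indObj (kerPara (Deg.triv pt Γ)).toPara (trivRep (Ker (Deg.triv pt Γ)))).V ≃ₗ[ℂ] ℂ where
  toFun f := (val f (1 : pt.T) : ℂ)
  map_add' _ _ := rfl
  map_smul' _ _ := rfl
  invFun c := mkInd (fun _ => c) (fun _ _ => (one_smul _ _).symm) ⟨⊤, fun _ _ _ => rfl⟩
    ⟨Set.univ, (Set.finite_univ : (Set.univ : Set Unit).Finite).isCompact,
      fun m _ => ⟨(1 : (Ker (Deg.triv pt Γ)).T), m, Set.mem_univ _, rfl⟩⟩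
  left_inv _ := rfl
  right_inv _ := rfl

/-- Clifford theory for the trivial group. -/
noncomputable def pointIso (Γ : CG) :
    (cliff (Deg.triv pt Γ)).obj (trivRep (Ker (Deg.triv pt Γ))) ≅
      trivEqObj (Deg.triv pt Γ) (fun _ => rfl) (trivRep pt) :=
  Equivariant.mkIso
    (x := (cliff (Deg.triv pt Γ)).obj (trivRep (Ker (Deg.triv pt Γ))))
    (y := trivEqObj (Deg.triv pt Γ) (fun _ => rfl) (trivRep pt))
    (SRep.mkIso (Y := trivRep pt) (pointEquiv Γ) (fun _ _ => rfl)) (fun a => by
      apply SRep.hom_ext
      intro f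
      change (indObj (kerPara (Deg.triv pt Γ)).toPara (trivRep (Ker (Deg.triv pt Γ)))).V at f
      have h1 : val (mulChr _ a f) (1 : pt.T) =
        (chr (Deg.triv pt Γ) a (1 : pt.T))⁻¹ • val f (1 : pt.T) := rfl
      rw [chr_ker (Deg.triv pt Γ) a rfl, inv_one, one_smul] at h1
      exact h1)

variable [NonarchimedeanGroup M.T] [LocallyCompactSpace M.T]

/-- Clifford theory takes the compact Whittaker space of the kernel of `d` to the compact
Whittaker space of the group. -/
noncomputable def whitIso {w : ParaOver (Deg.triv pt Γ) d} (hw : w.Topological) :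
    (cliff d).obj (indObj (restr w) (trivRep (Ker (Deg.triv pt Γ)))) ≅ whitEq w :=
  (interchange hw).app (trivRep (Ker (Deg.triv pt Γ))) ≪≫
    (mapEq (indD w)).mapIso (pointIso Γ)

end

end Smooth

end TwistDescent
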